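import Mathlib

/-! Finite presentations of groups. -/

set_option autoImplicit false

namespace Pool.Agent.TH18.NN

/-- finitely presented -/
def FPres (G : Type) [Group G] : Prop :=
  ∃ (r : ℕ) (f : FreeGroup (Fin r) →* G) (S : Finset (FreeGroup (Fin r))),
    Function.Surjective f ∧ f.ker = Subgroup.normalClosure (↑S : Set (FreeGroup (Fin r)))

section
variable {G : Type} [Group G]

/-- presentations over arbitrary finite types -/
theorem FPres.of_type {X : Type} [Fintype X] (f : FreeGroup X →* G) (S : Finset (FreeGroup X))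
    (hf : Function.Surjective f) (hS : f.ker = Subgroup.normalClosure (↑S : Set (FreeGroup X))) :
    FPres G := by
  classical
  let e : FreeGroup X ≃* FreeGroup (Fin (Fintype.card X)) :=
    FreeGroup.freeGroupCongr (Fintype.equivFin X)
  refine ⟨Fintype.card X, f.comp e.symm.toMonoidHom, S.image e, hf.comp e.symm.surjective, ?_⟩
  have h1 : (f.comp e.symm.toMonoidHom).ker = f.ker.map e.toMonoidHom := by
    ext x
    rw [MonoidHom.mem_ker, Subgroup.mem_map]
    constructor
    · intro h
      exact ⟨e.symm x, h, e.apply_symm_apply x⟩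
    · rintro ⟨y, hy, rfl⟩
      show f (e.symm (e y)) = 1
      rw [e.symm_apply_apply]; exact hy
  have h2 := Subgroup.map_normalClosure (↑S : Set (FreeGroup X)) e.toMonoidHom e.surjective
  rw [h1, hS, h2, Finset.coe_image]
  rfl

/-- kernels of surjections from free groups of finite rank -/
theorem FPres.ker {X : Type} [Fintype X] (h : FPres G) (g : FreeGroup X →* G)
    (hg : Function.Surjective g) :
    ∃ S : Finset (FreeGroup X), g.ker = Subgroup.normalClosure (↑S : Set (FreeGroup X)) := by
  classical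
  obtain ⟨r, f, S0, hf, hS0⟩ := h
  choose a ha using fun i : X => hf (g (FreeGroup.of i))
  choose b hb using fun i : Fin r => hg (f (FreeGroup.of i))
  let α : FreeGroup X →* FreeGroup (Fin r) := FreeGroup.lift a
  let β : FreeGroup (Fin r) →* FreeGroup X := FreeGroup.lift b
  have hα : f.comp α = g := by
    apply FreeGroup.ext_hom
    intro i
    show f (FreeGroup.lift a (FreeGroup.of i)) = _
    rw [FreeGroup.lift_apply_of, ha]
  have hβ : g.comp β = f := by
    apply FreeGroup.ext_hom
    intro i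
    show g (FreeGroup.lift b (FreeGroup.of i)) = _
    rw [FreeGroup.lift_apply_of, hb]
  let S : Finset (FreeGroup X) := S0.image β ∪
    Finset.univ.image (fun i : X => FreeGroup.of i * (β (α (FreeGroup.of i)))⁻¹)
  refine ⟨S, le_antisymm ?_ ?_⟩
  · intro w hw
    rw [MonoidHom.mem_ker] at hw
    let K := Subgroup.normalClosure (↑S : Set (FreeGroup X))
    have h1 : (QuotientGroup.mk' K) = (QuotientGroup.mk' K).comp (β.comp α) := by
      apply FreeGroup.ext_hom
      intro i
      show (QuotientGroup.mk (FreeGroup.of i) : FreeGroup X ⧸ K) =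
        QuotientGroup.mk (β (α (FreeGroup.of i)))
      rw [eq_comm, QuotientGroup.eq]
      have h2 : FreeGroup.of i * (β (α (FreeGroup.of i)))⁻¹ ∈ K := by
        apply Subgroup.subset_normalClosure
        apply Finset.mem_coe.2
        exact Finset.mem_union_right _ (Finset.mem_image.2 ⟨i, Finset.mem_univ _, rfl⟩)
      have h3 := Subgroup.normalClosure_normal.conj_mem _ h2 (β (α (FreeGroup.of i)))⁻¹
      have e : (β (α (FreeGroup.of i)))⁻¹ * (FreeGroup.of i * (β (α (FreeGroup.of i)))⁻¹) *
          (β (α (FreeGroup.of i)))⁻¹⁻¹ = (β (α (FreeGroup.of i)))⁻¹ * FreeGroup.of i := by group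
      rwa [e] at h3
    have h4 : β (α w) ∈ K := by
      have h5 : α w ∈ Subgroup.normalClosure (↑S0 : Set (FreeGroup (Fin r))) := by
        rw [← hS0, MonoidHom.mem_ker]
        have := DFunLike.congr_fun hα w
        rw [← hw]; exact this
      have h6 : Subgroup.normalClosure (↑S0 : Set (FreeGroup (Fin r))) ≤ K.comap β := by
        apply Subgroup.normalClosure_le_normal
        intro x hx
        show β x ∈ K
        apply Subgroup.subset_normalClosure
        apply Finset.mem_coe.2
        exact Finset.mem_union_left _ (Finset.mem_image.2 ⟨x, hx, rfl⟩)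
      exact h6 h5
    have h7 := DFunLike.congr_fun h1 w
    have h8 : (QuotientGroup.mk' K) w = 1 := by
      rw [h7]
      show (QuotientGroup.mk (β (α w)) : FreeGroup X ⧸ K) = 1
      rw [QuotientGroup.eq_one_iff]; exact h4
    exact (QuotientGroup.eq_one_iff w).1 h8
  · apply Subgroup.normalClosure_le_normal
    intro x hx
    rcases Finset.mem_union.1 (Finset.mem_coe.1 hx) with hx | hx
    · obtain ⟨y, hy, rfl⟩ := Finset.mem_image.1 hx
      have h1 : y ∈ f.ker := by rw [hS0]; exact Subgroup.subset_normalClosure hy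
      show g (β y) = 1
      have := DFunLike.congr_fun hβ y
      exact this.trans h1
    · obtain ⟨i, _, rfl⟩ := Finset.mem_image.1 hx
      show g (FreeGroup.of i * (β (α (FreeGroup.of i)))⁻¹) = 1
      rw [map_mul, map_inv]
      have h1 : g (β (α (FreeGroup.of i))) = g (FreeGroup.of i) :=
        (DFunLike.congr_fun hβ _).trans (DFunLike.congr_fun hα _)
      rw [h1, mul_inv_cancel]

/-- the kernel of a surjection of a finitely generated group onto a finitely presented one -/
theorem FPres.ker_fg {Q : Type} [Group Q] (hG : FPres G) (hQ : FPres Q) (π : G →* Q)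
    (hπ : Function.Surjective π) :
    ∃ H : Finset G, π.ker = Subgroup.normalClosure (↑H : Set G) := by
  classical
  obtain ⟨m, f, _, hf, _⟩ := hG
  obtain ⟨S, hS⟩ := hQ.ker (π.comp f) (hπ.comp hf)
  refine ⟨S.image f, ?_⟩
  have h1 : π.ker = (π.comp f).ker.map f := by
    ext x
    rw [MonoidHom.mem_ker, Subgroup.mem_map]
    constructor
    · intro h
      obtain ⟨y, rfl⟩ := hf x
      exact ⟨y, h, rfl⟩
    · rintro ⟨y, hy, rfl⟩
      exact hy
  rw [h1, hS, Subgroup.map_normalClosure _ _ hf, Finset.coe_image]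

end

/-! ### extensions -/

section ext
variable {N P Γ : Type} [Group N] [Group P] [Group Γ]

/-- **Extensions of finitely presented groups.** -/
theorem FPres.ext (ι : N →* P) (hι : Function.Injective ι) (π : P →* Γ)
    (hπ : Function.Surjective π) (hker : ∀ g, π g = 1 ↔ ∃ ν, ι ν = g) (hN : FPres N)
    (hΓ : FPres Γ) : FPres P := by
  classical
  obtain ⟨a, fN, SN, hfN, hSN⟩ := hN
  obtain ⟨b, f2, S2, hf2, hS2⟩ := hΓ
  choose t ht using fun j : Fin b => hπ (f2 (FreeGroup.of j))
  let X := Fin a ⊕ Fin b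
  let ja : FreeGroup (Fin a) →* FreeGroup X := FreeGroup.map Sum.inl
  let jb : FreeGroup (Fin b) →* FreeGroup X := FreeGroup.map Sum.inr
  let f : FreeGroup X →* P := FreeGroup.lift (Sum.elim (fun i => ι (fN (FreeGroup.of i))) t)
  let q : FreeGroup X →* FreeGroup (Fin b) := FreeGroup.lift (Sum.elim (fun _ => 1) FreeGroup.of)
  have hja : ∀ u, f (ja u) = ι (fN u) := by
    have : f.comp ja = ι.comp fN := by
      apply FreeGroup.ext_hom
      intro i
      show f (FreeGroup.map Sum.inl (FreeGroup.of i)) = _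
      rw [FreeGroup.map.of]
      show FreeGroup.lift _ (FreeGroup.of (Sum.inl i)) = _
      rw [FreeGroup.lift_apply_of]; rfl
    exact DFunLike.congr_fun this
  have hq : ∀ w, π (f w) = f2 (q w) := by
    have : π.comp f = f2.comp q := by
      apply FreeGroup.ext_hom
      intro x
      show π (FreeGroup.lift _ (FreeGroup.of x)) = f2 (FreeGroup.lift _ (FreeGroup.of x))
      rw [FreeGroup.lift_apply_of, FreeGroup.lift_apply_of]
      rcases x with i | j
      · show π (ι _) = f2 1
        rw [map_one]; exact (hker _).2 ⟨_, rfl⟩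
      · exact ht j
    exact DFunLike.congr_fun this
  have hfa : ∀ i : Fin a, f (FreeGroup.of (Sum.inl i)) = ι (fN (FreeGroup.of i)) := fun i => by
    show FreeGroup.lift _ (FreeGroup.of (Sum.inl i)) = _
    rw [FreeGroup.lift_apply_of]; rfl
  have hfb : ∀ j : Fin b, f (FreeGroup.of (Sum.inr j)) = t j := fun j => by
    show FreeGroup.lift _ (FreeGroup.of (Sum.inr j)) = _
    rw [FreeGroup.lift_apply_of]; rfl
  have hfs : Function.Surjective f := by
    intro g
    obtain ⟨w, hw⟩ := hf2 (π g)
    have h1 : π (g * (f (jb w))⁻¹) = 1 := by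
      rw [map_mul, map_inv, hq]
      have : q (jb w) = w := by
        have : q.comp jb = MonoidHom.id _ := by
          apply FreeGroup.ext_hom
          intro j
          show q (FreeGroup.map Sum.inr (FreeGroup.of j)) = _
          rw [FreeGroup.map.of]
          show FreeGroup.lift _ (FreeGroup.of (Sum.inr j)) = _
          rw [FreeGroup.lift_apply_of]; rfl
        exact DFunLike.congr_fun this w
      rw [this, hw, mul_inv_cancel]
    obtain ⟨ν, hν⟩ := (hker _).1 h1
    obtain ⟨u, rfl⟩ := hfN ν
    refine ⟨ja u * jb w, ?_⟩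
    rw [map_mul, hja, hν, inv_mul_cancel_right]
  -- words in the first letters
  have hword : ∀ w : FreeGroup X, ∃ u : FreeGroup (Fin a), π (f w) = 1 → f w = ι (fN u) := by
    intro w
    by_cases h : π (f w) = 1
    · obtain ⟨ν, hν⟩ := (hker _).1 h
      obtain ⟨u, rfl⟩ := hfN ν
      exact ⟨u, fun _ => hν.symm⟩
    · exact ⟨1, fun h' => absurd h' h⟩
  choose c hc using hword
  let r1 : Fin b × Fin a → FreeGroup X := fun x =>
    FreeGroup.of (Sum.inr x.1) * FreeGroup.of (Sum.inl x.2) * (FreeGroup.of (Sum.inr x.1))⁻¹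
  let r2 : Fin b × Fin a → FreeGroup X := fun x =>
    (FreeGroup.of (Sum.inr x.1))⁻¹ * FreeGroup.of (Sum.inl x.2) * FreeGroup.of (Sum.inr x.1)
  let S : Finset (FreeGroup X) := SN.image ja ∪
    (Finset.univ.image (fun x => r1 x * (ja (c (r1 x)))⁻¹) ∪
    (Finset.univ.image (fun x => r2 x * (ja (c (r2 x)))⁻¹) ∪
    S2.image (fun w => jb w * (ja (c (jb w)))⁻¹)))
  let K := Subgroup.normalClosure (↑S : Set (FreeGroup X))
  have hKn : K.Normal := Subgroup.normalClosure_normal
  have hS1 : ∀ w ∈ SN, ja w ∈ K := fun w hw => Subgroup.subset_normalClosure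
    (Finset.mem_coe.2 (Finset.mem_union_left _ (Finset.mem_image.2 ⟨w, hw, rfl⟩)))
  have hS2' : ∀ x, r1 x * (ja (c (r1 x)))⁻¹ ∈ K := fun x => Subgroup.subset_normalClosure
    (Finset.mem_coe.2 (Finset.mem_union_right _ (Finset.mem_union_left _
      (Finset.mem_image.2 ⟨x, Finset.mem_univ _, rfl⟩))))
  have hS3 : ∀ x, r2 x * (ja (c (r2 x)))⁻¹ ∈ K := fun x => Subgroup.subset_normalClosure
    (Finset.mem_coe.2 (Finset.mem_union_right _ (Finset.mem_union_right _ (Finset.mem_union_left _
      (Finset.mem_image.2 ⟨x, Finset.mem_univ _, rfl⟩)))))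
  have hS4 : ∀ w ∈ S2, jb w * (ja (c (jb w)))⁻¹ ∈ K := fun w hw => Subgroup.subset_normalClosure
    (Finset.mem_coe.2 (Finset.mem_union_right _ (Finset.mem_union_right _ (Finset.mem_union_right _
      (Finset.mem_image.2 ⟨w, hw, rfl⟩)))))
  -- the subgroup generated by `K` and the first letters
  let A : Subgroup (FreeGroup X) :=
    (((QuotientGroup.mk' K).comp ja).range).comap (QuotientGroup.mk' K)
  have hA : ∀ w, w ∈ A ↔ ∃ u, (QuotientGroup.mk (ja u) : FreeGroup X ⧸ K) = QuotientGroup.mk w :=
    fun w => Iff.rfl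
  have hjaA : ∀ u, ja u ∈ A := fun u => (hA _).2 ⟨u, rfl⟩
  have hKA : ∀ w ∈ K, w ∈ A := by
    intro w hw
    refine (hA _).2 ⟨1, ?_⟩
    rw [map_one, eq_comm, QuotientGroup.mk_one, QuotientGroup.eq_one_iff]; exact hw
  have hAof : ∀ w u, w * (ja u)⁻¹ ∈ K → w ∈ A := by
    intro w u h
    have := A.mul_mem (hKA _ h) (hjaA u)
    rwa [inv_mul_cancel_right] at this
  -- normality
  have hconj : ∀ g : FreeGroup X, (∀ i, g * FreeGroup.of (Sum.inl i) * g⁻¹ ∈ A) →
      ∀ w ∈ A, g * w * g⁻¹ ∈ A := by
    intro g hg w hw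
    have h1 : ∀ u : FreeGroup (Fin a), g * ja u * g⁻¹ ∈ A := by
      intro u
      let φ : FreeGroup (Fin a) →* FreeGroup X := (MulAut.conj g).toMonoidHom.comp ja
      have h2 : φ.range ≤ A := by
        rw [MonoidHom.range_eq_map, ← FreeGroup.closure_range_of, MonoidHom.map_closure,
          Subgroup.closure_le]
        rintro _ ⟨_, ⟨i, rfl⟩, rfl⟩
        show g * FreeGroup.map Sum.inl (FreeGroup.of i) * g⁻¹ ∈ A
        rw [FreeGroup.map.of]
        exact hg i
      exact h2 ⟨u, rfl⟩
    obtain ⟨u, hu⟩ := (hA w).1 hw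
    rw [QuotientGroup.eq] at hu
    have h3 : g * w * g⁻¹ = (g * ja u * g⁻¹) * (g * ((ja u)⁻¹ * w) * g⁻¹) := by group
    rw [h3]
    exact A.mul_mem (h1 u) (hKA _ (hKn.conj_mem _ hu g))
  have hgen : ∀ x : X, (∀ w ∈ A, FreeGroup.of x * w * (FreeGroup.of x)⁻¹ ∈ A) ∧
      (∀ w ∈ A, (FreeGroup.of x)⁻¹ * w * (FreeGroup.of x)⁻¹⁻¹ ∈ A) := by
    rintro (i | j)
    · have h1 : (FreeGroup.of (Sum.inl i) : FreeGroup X) ∈ A := by
        have := hjaA (FreeGroup.of i)
        have e : ja (FreeGroup.of i) = FreeGroup.of (Sum.inl i) := FreeGroup.map.of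
        rwa [e] at this
      exact ⟨fun w hw => A.mul_mem (A.mul_mem h1 hw) (A.inv_mem h1),
        fun w hw => A.mul_mem (A.mul_mem (A.inv_mem h1) hw) (A.inv_mem (A.inv_mem h1))⟩
    · refine ⟨hconj _ fun i => hAof _ _ (hS2' (j, i)), hconj _ fun i => ?_⟩
      rw [inv_inv]
      exact hAof _ _ (hS3 (j, i))
  have hAn : A.Normal := by
    refine ⟨fun w hw g => ?_⟩
    revert w
    induction g using FreeGroup.induction_on with
    | C1 => intro w hw; rw [one_mul, inv_one, mul_one]; exact hw
    | of x => intro w hw; exact (hgen x).1 w hw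
    | inv_of x _ => intro w hw; exact (hgen x).2 w hw
    | mul x y hx hy =>
      intro w hw
      have := hx _ (hy w hw)
      have e : x * (y * w * y⁻¹) * x⁻¹ = x * y * w * (x * y)⁻¹ := by group
      rwa [e] at this
  -- reduction modulo `A`
  have hmod : ∀ w, (QuotientGroup.mk w : FreeGroup X ⧸ A) = QuotientGroup.mk (jb (q w)) := by
    have h1 : (QuotientGroup.mk' A) = (QuotientGroup.mk' A).comp (jb.comp q) := by
      apply FreeGroup.ext_hom
      intro x
      show (QuotientGroup.mk (FreeGroup.of x) : FreeGroup X ⧸ A) =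
        QuotientGroup.mk (jb (q (FreeGroup.of x)))
      have h2 : q (FreeGroup.of x) = Sum.elim (fun _ => 1) FreeGroup.of x := by
        show FreeGroup.lift _ (FreeGroup.of x) = _
        rw [FreeGroup.lift_apply_of]
      rw [h2]
      rcases x with i | j
      · show (QuotientGroup.mk (FreeGroup.of (Sum.inl i)) : FreeGroup X ⧸ A) =
          QuotientGroup.mk (jb 1)
        rw [map_one, QuotientGroup.mk_one, QuotientGroup.eq_one_iff]
        have := hjaA (FreeGroup.of i)
        have e : ja (FreeGroup.of i) = FreeGroup.of (Sum.inl i) := FreeGroup.map.of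
        rwa [e] at this
      · show _ = (QuotientGroup.mk (FreeGroup.map Sum.inr (FreeGroup.of j)) : FreeGroup X ⧸ A)
        rw [FreeGroup.map.of]
    exact DFunLike.congr_fun h1
  have hqjb : ∀ y, q (jb y) = y := by
    have : q.comp jb = MonoidHom.id _ := by
      apply FreeGroup.ext_hom
      intro j
      show q (FreeGroup.map Sum.inr (FreeGroup.of j)) = _
      rw [FreeGroup.map.of]
      show FreeGroup.lift _ (FreeGroup.of (Sum.inr j)) = _
      rw [FreeGroup.lift_apply_of]; rfl
    exact DFunLike.congr_fun this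
  have hπa : ∀ i, π (f (FreeGroup.of (Sum.inl i))) = 1 := fun i => by
    rw [hfa]; exact (hker _).2 ⟨_, rfl⟩
  have hKker : K ≤ f.ker := by
    apply Subgroup.normalClosure_le_normal
    intro x hx
    show f x = 1
    rcases Finset.mem_union.1 (Finset.mem_coe.1 hx) with hx | hx
    · obtain ⟨y, hy, rfl⟩ := Finset.mem_image.1 hx
      have : y ∈ fN.ker := by rw [hSN]; exact Subgroup.subset_normalClosure hy
      rw [hja, MonoidHom.mem_ker.1 this, map_one]
    rcases Finset.mem_union.1 hx with hx | hx
    · obtain ⟨y, _, rfl⟩ := Finset.mem_image.1 hx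
      have h5 : π (f (r1 y)) = 1 := by
        simp only [r1, map_mul, map_inv, hπa, mul_one, mul_inv_cancel]
      rw [map_mul, map_inv, hja, hc _ h5, mul_inv_cancel]
    rcases Finset.mem_union.1 hx with hx | hx
    · obtain ⟨y, _, rfl⟩ := Finset.mem_image.1 hx
      have h5 : π (f (r2 y)) = 1 := by
        simp only [r2, map_mul, map_inv, hπa, mul_one, inv_mul_cancel]
      rw [map_mul, map_inv, hja, hc _ h5, mul_inv_cancel]
    · obtain ⟨y, hy, rfl⟩ := Finset.mem_image.1 hx
      have h5 : π (f (jb y)) = 1 := by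
        rw [hq, hqjb]
        have : y ∈ f2.ker := by rw [hS2]; exact Subgroup.subset_normalClosure hy
        exact this
      rw [map_mul, map_inv, hja, hc _ h5, mul_inv_cancel]
  refine FPres.of_type f S hfs (le_antisymm ?_ ?_)
  · intro w hw
    rw [MonoidHom.mem_ker] at hw
    show w ∈ K
    have h1 : q w ∈ f2.ker := by rw [MonoidHom.mem_ker, ← hq, hw, map_one]
    rw [hS2] at h1
    have h2 : Subgroup.normalClosure (↑S2 : Set (FreeGroup (Fin b))) ≤ A.comap jb := by
      apply Subgroup.normalClosure_le_normal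
      intro x hx
      exact hAof _ _ (hS4 x hx)
    have h3 : jb (q w) ∈ A := h2 h1
    have h4 : w ∈ A := by
      rw [← QuotientGroup.eq_one_iff (N := A), hmod, QuotientGroup.eq_one_iff]; exact h3
    obtain ⟨u, hu⟩ := (hA w).1 h4
    rw [QuotientGroup.eq] at hu
    have h5 : f (ja u) = 1 := by
      have h6 : f ((ja u)⁻¹ * w) = 1 := hKker hu
      rw [map_mul, hw, mul_one, map_inv, inv_eq_one] at h6
      exact h6
    rw [hja] at h5
    have h6 : fN u = 1 := hι (by rw [h5, map_one])
    have h7 : u ∈ Subgroup.normalClosure (↑SN : Set (FreeGroup (Fin a))) := by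
      rw [← hSN]; exact h6
    have h8 : Subgroup.normalClosure (↑SN : Set (FreeGroup (Fin a))) ≤ K.comap ja := by
      apply Subgroup.normalClosure_le_normal
      intro x hx
      exact hS1 x hx
    have h9 : ja u ∈ K := h8 h7
    have := K.mul_mem h9 hu
    rwa [mul_inv_cancel_left] at this
  · exact hKker

end ext

/-- monoid generators -/
theorem FPres.gens {G : Type} [Group G] (h : FPres G) : ∃ (r : ℕ) (q : Fin r → G),
    ∀ g, ∃ l : List (Fin r), g = (l.map q).prod := by
  classical
  obtain ⟨m, f, _, hf, _⟩ := h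
  let q0 : Fin m ⊕ Fin m → G := Sum.elim (fun i => f (FreeGroup.of i)) (fun i => (f (FreeGroup.of i))⁻¹)
  have h1 : ∀ w, ∃ l : List (Fin m ⊕ Fin m), f w = (l.map q0).prod := by
    intro w
    induction w using FreeGroup.induction_on with
    | C1 => exact ⟨[], by rw [map_one]; rfl⟩
    | of x => exact ⟨[Sum.inl x], by simp [q0]⟩
    | inv_of x _ => exact ⟨[Sum.inr x], by simp [q0]⟩
    | mul x y hx hy =>
      obtain ⟨l, hl⟩ := hx
      obtain ⟨l', hl'⟩ := hy
      exact ⟨l ++ l', by rw [map_mul, hl, hl', List.map_append, List.prod_append]⟩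
  let e := Fintype.equivFin (Fin m ⊕ Fin m)
  refine ⟨_, q0 ∘ e.symm, fun g => ?_⟩
  obtain ⟨w, rfl⟩ := hf g
  obtain ⟨l, hl⟩ := h1 w
  refine ⟨l.map e, ?_⟩
  rw [hl, List.map_map]
  congr 1
  apply List.map_congr_left
  intro x _
  simp

end Pool.Agent.TH18.NN
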