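import Pool.Agent.TH18.NN.Link
import Pool.Agent.TH18.NN.Pres

/-! The `n`-`(n+1)`-`(n+2)` theorem. -/

set_option autoImplicit false

namespace Pool.Agent.TH18.NN

open Pool.Agent.W326.DU (IL ZG)
open Pool.Agent.W571.DU

/-! ### conversions -/

section conv
variable {G : Type} [Group G]

/-- the total augmentation as a linear map -/
noncomputable def totL (a : ℕ) : (Fin a → ZG G) →ₗ[ZG G] Tr G where
  toFun x := (show ℤ from tot x)
  map_add' x y := tot_add x y
  map_smul' c x := tot_smul c x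

theorem totL_surj {a : ℕ} (h : ∃ x : Fin a → ZG G, tot x = 1) :
    Function.Surjective (totL (G := G) a) := by
  intro z
  obtain ⟨x, hx⟩ := h
  refine ⟨(((show ℤ from z) : ℤ) : ZG G) • x, ?_⟩
  rw [map_smul]
  show (augR G ((show ℤ from z : ℤ) : ZG G)) * tot x = (show ℤ from z)
  rw [hx, mul_one, map_intCast]
  rfl

theorem NRes.fpm {m : ℕ} (F : NRes G m) : FPm (ZG G) m (Tr G) := by
  let X : ℕ → ModuleCat.{0} (ZG G) := fun j => match j with
    | 0 => ModuleCat.of (ZG G) (Tr G)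
    | j + 1 => ModuleCat.of (ZG G) (Fin (F.k j) → ZG G)
  let dl : ∀ j, X (j + 1) →ₗ[ZG G] X j := fun j => match j with
    | 0 => totL (F.k 0)
    | j + 1 => F.d j
  refine fpm_of_complex X dl m (totL_surj F.one) ?_ ?_
  · intro j hj
    cases j with
    | zero => exact F.ex0 (by omega)
    | succ j => exact F.ex j (by omega)
  · intro j _ l
    exact FPm.free l (F.k j)

/-- resolutions out of `FP_n` -/
theorem FPm.res {R : Type} [Ring R] : ∀ {n : ℕ} {M : Type} [AddCommGroup M] [Module R M],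
    FPm R n M → ∃ (k : ℕ → ℕ) (d : ∀ j, (Fin (k (j + 1)) → R) →ₗ[R] (Fin (k j) → R))
      (e : (Fin (k 0) → R) →ₗ[R] M), Function.Surjective e ∧
      (0 < n → ∀ x, e x = 0 ↔ ∃ y, d 0 y = x) ∧
      ∀ j, j + 2 ≤ n → ∀ x, d j x = 0 ↔ ∃ y, d (j + 1) y = x := by
  intro n
  induction n with
  | zero =>
    intro M _ _ h
    rw [fpm_zero] at h
    obtain ⟨a, f, hf⟩ := Module.Finite.exists_fin' R M
    let k : ℕ → ℕ := fun j => match j with
      | 0 => a
      | _ + 1 => 0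
    exact ⟨k, fun j => 0, f, hf, fun h => absurd h (lt_irrefl _), fun j hj => by omega⟩
  | succ n ih =>
    intro M _ _ h
    obtain ⟨a, f, hf, hk⟩ := h
    obtain ⟨k', d', e', h1, h2, h3⟩ := ih hk
    let k : ℕ → ℕ := fun j => match j with
      | 0 => a
      | j + 1 => k' j
    let d : ∀ j, (Fin (k (j + 1)) → R) →ₗ[R] (Fin (k j) → R) := fun j => match j with
      | 0 => (LinearMap.ker f).subtype ∘ₗ e'
      | j + 1 => d' j
    refine ⟨k, d, f, hf, ?_, ?_⟩
    · intro _ x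
      constructor
      · intro hx
        obtain ⟨y, hy⟩ := h1 ⟨x, hx⟩
        exact ⟨y, congrArg Subtype.val hy⟩
      · rintro ⟨y, rfl⟩
        exact (e' y).2
    · intro j hj
      cases j with
      | zero =>
        intro x
        have h4 := h2 (by omega) x
        rw [show (∃ y, d (0 + 1) y = x) ↔ ∃ y, d' 0 y = x from Iff.rfl, ← h4]
        constructor
        · intro hx
          exact Subtype.ext hx
        · intro hx
          show (e' x).1 = 0
          rw [hx]; rfl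
      | succ j => exact h3 j (by omega)

theorem fpm_res {m : ℕ} (h : FPm (ZG G) (m + 1) (Tr G)) : Nonempty (NRes G (m + 1)) := by
  have h1 : FPm (ZG G) m (LinearMap.ker (totL (G := G) 1)) :=
    FPm.ker _ (totL_surj ⟨Pi.single 0 1, tot_single 0⟩) (FPm.free m 1) h
  obtain ⟨k', d', e', h2, h3, h4⟩ := h1.res
  let k : ℕ → ℕ := fun j => match j with
    | 0 => 1
    | j + 1 => k' j
  let d : ∀ j, (Fin (k (j + 1)) → ZG G) →ₗ[ZG G] (Fin (k j) → ZG G) := fun j => match j with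
    | 0 => (LinearMap.ker (totL (G := G) 1)).subtype ∘ₗ e'
    | j + 1 => d' j
  refine ⟨⟨k, d, ⟨Pi.single 0 1, tot_single (a := 1) 0⟩, ?_, ?_⟩⟩
  · intro _ x
    constructor
    · intro hx
      obtain ⟨y, hy⟩ := h2 ⟨x, hx⟩
      exact ⟨y, congrArg Subtype.val hy⟩
    · rintro ⟨y, rfl⟩
      exact (e' y).2
  · intro j hj
    cases j with
    | zero =>
      intro x
      have h5 := h3 (by omega) x
      rw [show (∃ y, d (0 + 1) y = x) ↔ ∃ y, d' 0 y = x from Iff.rfl, ← h5]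
      constructor
      · intro hx
        exact Subtype.ext hx
      · intro hx
        show (e' x).1 = 0
        rw [hx]; rfl
    | succ j => exact h4 j (by omega)

end conv

/-! ### the theorem -/

section main

/-- fibre product -/
abbrev FibP {Γ₁ Γ₂ Q : Type} [Group Γ₁] [Group Γ₂] [Group Q] (π₁ : Γ₁ →* Q) (π₂ : Γ₂ →* Q) :
    Subgroup (Γ₁ × Γ₂) :=
  MonoidHom.eqLocus (π₁.comp (MonoidHom.fst Γ₁ Γ₂)) (π₂.comp (MonoidHom.snd Γ₁ Γ₂))

variable {Γ₁ Γ₂ Q : Type} [Group Γ₁] [Group Γ₂] [Group Q] (π₁ : Γ₁ →* Q) (π₂ : Γ₂ →* Q)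

theorem mem_FibP (x : Γ₁ × Γ₂) : x ∈ FibP π₁ π₂ ↔ π₁ x.1 = π₂ x.2 := Iff.rfl

/-- the inclusion of the kernel -/
def iN : π₁.ker →* FibP π₁ π₂ where
  toFun ν := ⟨(ν.1, 1), by rw [mem_FibP]; rw [map_one]; exact ν.2⟩
  map_one' := rfl
  map_mul' a b := by
    apply Subtype.ext
    show (a.1 * b.1, (1 : Γ₂)) = (a.1 * b.1, 1 * 1)
    rw [mul_one]

/-- the first projection -/
def p1 : FibP π₁ π₂ →* Γ₁ := (MonoidHom.fst Γ₁ Γ₂).comp (FibP π₁ π₂).subtype

/-- the second projection -/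
def p2 : FibP π₁ π₂ →* Γ₂ := (MonoidHom.snd Γ₁ Γ₂).comp (FibP π₁ π₂).subtype

theorem iN_inj : Function.Injective (iN π₁ π₂) := by
  intro a b h
  apply Subtype.ext
  exact congrArg (fun z : FibP π₁ π₂ => z.1.1) h

theorem p1_surj (h2 : Function.Surjective π₂) : Function.Surjective (p1 π₁ π₂) := by
  intro g
  obtain ⟨g', hg⟩ := h2 (π₁ g)
  exact ⟨⟨(g, g'), hg.symm⟩, rfl⟩

theorem p2_surj (h1 : Function.Surjective π₁) : Function.Surjective (p2 π₁ π₂) := by
  intro g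
  obtain ⟨g', hg⟩ := h1 (π₂ g)
  exact ⟨⟨(g', g), hg⟩, rfl⟩

theorem p2_ker (g : FibP π₁ π₂) : p2 π₁ π₂ g = 1 ↔ ∃ ν, iN π₁ π₂ ν = g := by
  constructor
  · intro h
    have h1 : g.1.2 = 1 := h
    have h2 : π₁ g.1.1 = 1 := by
      have := (mem_FibP π₁ π₂ g.1).1 g.2
      rw [this, h1, map_one]
    exact ⟨⟨g.1.1, h2⟩, Subtype.ext (Prod.ext rfl h1.symm)⟩
  · rintro ⟨ν, rfl⟩
    rfl

theorem ker_iff (g : Γ₁) : π₁ g = 1 ↔ ∃ ν, ((p1 π₁ π₂).comp (iN π₁ π₂)) ν = g := by
  constructor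
  · intro h
    exact ⟨⟨g, h⟩, rfl⟩
  · rintro ⟨ν, rfl⟩
    exact ν.2

/-- **Main theorem.** -/
theorem main {n : ℕ} (h1 : Function.Surjective π₁) (h2 : Function.Surjective π₂)
    (F : NRes π₁.ker (n + 1)) (hG1 : FPm (ZG Γ₁) (n + 2) (Tr Γ₁))
    (hG2 : FPm (ZG Γ₂) (n + 2) (Tr Γ₂)) (hQ : FPm (ZG Q) (n + 3) (Tr Q))
    (hpG2 : FPres Γ₂) (hpQ : FPres Q) :
    FPm (ZG (FibP π₁ π₂)) (n + 2) (Tr (FibP π₁ π₂)) := by
  classical
  -- generators
  obtain ⟨r, q, hq⟩ := hpG2.gens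
  choose s hs using fun i => p2_surj π₁ π₂ h1 (q i)
  have hgen : ∀ g : FibP π₁ π₂, ∃ (l : List (Fin r)) (ν : π₁.ker), g = (l.map s).prod * iN π₁ π₂ ν := by
    intro g
    obtain ⟨l, hl⟩ := hq (p2 π₁ π₂ g)
    have h3 : p2 π₁ π₂ ((l.map s).prod⁻¹ * g) = 1 := by
      rw [map_mul, map_inv, map_list_prod, List.map_map, hl]
      have : (⇑(p2 π₁ π₂) ∘ s) = q := funext hs
      rw [this, inv_mul_cancel]
    obtain ⟨ν, hν⟩ := (p2_ker π₁ π₂ _).1 h3
    exact ⟨l, ν, by rw [hν, mul_inv_cancel_left]⟩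
  have hN := normal_of (iN π₁ π₂) (p2 π₁ π₂) (p2_ker π₁ π₂)
  let Φ : ∀ i, CM (iN π₁ π₂) F (s i) := fun i => cm (iN π₁ π₂) F hN (iN_inj π₁ π₂) (s i)
  -- closures
  have hcl2 : Subgroup.closure (Set.range (fun i => p2 π₁ π₂ (s i))) = ⊤ := by
    rw [eq_top_iff]
    intro g _
    obtain ⟨l, rfl⟩ := hq g
    apply Subgroup.list_prod_mem
    intro x hx
    obtain ⟨i, _, rfl⟩ := List.mem_map.1 hx
    exact Subgroup.subset_closure ⟨i, hs i⟩
  have hcl1 : Subgroup.closure (Set.range (fun i => π₁ (p1 π₁ π₂ (s i)))) = ⊤ := by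
    rw [eq_top_iff]
    intro g _
    obtain ⟨g', rfl⟩ := h2 g
    obtain ⟨l, rfl⟩ := hq g'
    rw [map_list_prod]
    apply Subgroup.list_prod_mem
    intro x hx
    rw [List.map_map] at hx
    obtain ⟨i, _, rfl⟩ := List.mem_map.1 hx
    apply Subgroup.subset_closure
    refine ⟨i, ?_⟩
    have h3 := (mem_FibP π₁ π₂ (s i).1).1 (s i).2
    show π₁ (s i).1.1 = π₂ (q i)
    rw [h3, ← hs i]; rfl
  -- the first factor
  have hW1 := pk_wfg ((p1 π₁ π₂).comp (iN π₁ π₂)) (by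
      intro a b h
      exact Subtype.ext h) π₁ h1 (ker_iff π₁ π₂) F (fun i => p1 π₁ π₂ (s i))
    (fun i => (Φ i).push (iN π₁ π₂) (p1 π₁ π₂) F) hcl1 hG1 hQ
  rw [wfg_iff] at hW1
  -- the kernel of the first projection
  obtain ⟨H0, hH0⟩ := FPres.ker_fg hpG2 hpQ π₂ h2
  have hex : ∀ h : Γ₂, ∃ h' : FibP π₁ π₂, π₂ h = 1 → h'.1 = (1, h) := by
    intro h
    by_cases hh : π₂ h = 1
    · exact ⟨⟨(1, h), by rw [mem_FibP, map_one, hh]⟩, fun _ => rfl⟩
    · exact ⟨1, fun h' => absurd h' hh⟩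
  choose c hc using hex
  let H : Finset (FibP π₁ π₂) := H0.image c
  have hkerH : (p1 π₁ π₂).ker = Subgroup.normalClosure (H : Set (FibP π₁ π₂)) := by
    apply le_antisymm
    · intro g hg
      have hg1 : g.1.1 = 1 := hg
      have hg2 : g.1.2 ∈ π₂.ker := by
        have := (mem_FibP π₁ π₂ g.1).1 g.2
        rw [MonoidHom.mem_ker, ← this, hg1, map_one]
      rw [hH0] at hg2
      -- the elements `γ` such that every lift `(1, γ)` lies in the closure
      let K := Subgroup.normalClosure (H : Set (FibP π₁ π₂))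
      have hKn : K.Normal := Subgroup.normalClosure_normal
      have key : ∀ γ ∈ Subgroup.normalClosure (H0 : Set Γ₂), ∃ k ∈ K, k.1 = (1, γ) := by
        intro γ hγ
        induction hγ using Subgroup.closure_induction with
        | mem x hx =>
          rw [Group.mem_conjugatesOfSet_iff] at hx
          obtain ⟨a, ha, hca⟩ := hx
          obtain ⟨g', hg'⟩ := isConj_iff.1 hca
          obtain ⟨g'', rfl⟩ := p2_surj π₁ π₂ h1 g'
          have ha2 : π₂ a = 1 := by
            have : a ∈ π₂.ker := by rw [hH0]; exact Subgroup.subset_normalClosure ha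
            exact this
          have h4 : c a ∈ K := Subgroup.subset_normalClosure
            (Finset.mem_coe.2 (Finset.mem_image.2 ⟨a, ha, rfl⟩))
          refine ⟨g'' * c a * g''⁻¹, hKn.conj_mem _ h4 g'', ?_⟩
          show g''.1 * (c a).1 * (g''.1)⁻¹ = (1, x)
          rw [hc a ha2, ← hg']
          apply Prod.ext
          · show g''.1.1 * 1 * (g''.1.1)⁻¹ = 1
            rw [mul_one, mul_inv_cancel]
          · rfl
        | one => exact ⟨1, K.one_mem, rfl⟩
        | mul x y _ _ hx hy =>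
          obtain ⟨k, hk, hk'⟩ := hx
          obtain ⟨k2, hk2, hk2'⟩ := hy
          refine ⟨k * k2, K.mul_mem hk hk2, ?_⟩
          show k.1 * k2.1 = _
          rw [hk', hk2', Prod.mk_mul_mk, mul_one]
        | inv x _ hx =>
          obtain ⟨k, hk, hk'⟩ := hx
          refine ⟨k⁻¹, K.inv_mem hk, ?_⟩
          show (k.1)⁻¹ = _
          rw [hk', Prod.inv_mk, inv_one]
      obtain ⟨k, hk, hk'⟩ := key _ hg2
      have : g = k := by
        apply Subtype.ext
        rw [hk']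
        exact Prod.ext hg1 rfl
      rw [this]; exact hk
    · apply Subgroup.normalClosure_le_normal
      intro x hx
      obtain ⟨a, ha, rfl⟩ := Finset.mem_image.1 (Finset.mem_coe.1 hx)
      have ha2 : π₂ a = 1 := by
        have : a ∈ π₂.ker := by rw [hH0]; exact Subgroup.subset_normalClosure ha
        exact this
      show (c a).1.1 = 1
      rw [hc a ha2]
  -- the section
  choose s2 hs2 using h2
  let sec : Γ₁ → FibP π₁ π₂ := fun γ => ⟨(γ, s2 (π₁ γ)), by rw [mem_FibP, hs2]⟩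
  have hW := link (iN π₁ π₂) hN (p1 π₁ π₂) F s Φ (by
      intro a b h
      exact Subtype.ext h) sec (fun γ => rfl) (by
      intro γ ν
      apply Subtype.ext
      apply Prod.ext
      · rfl
      · show s2 (π₁ (γ * ν.1)) = s2 (π₁ γ) * 1
        have : π₁ ν.1 = 1 := ν.2
        rw [map_mul, this, mul_one, mul_one]) (iN_inj π₁ π₂)
    (p1_surj π₁ π₂ fun x => ⟨s2 x, hs2 x⟩)
    (by
      intro h hh ν
      have hh1 : h.1.1 = 1 := hh
      apply Subtype.ext
      apply Prod.ext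
      · show ν.1 * h.1.1 = h.1.1 * ν.1
        rw [hh1, mul_one, one_mul]
      · show 1 * h.1.2 = h.1.2 * 1
        rw [mul_one, one_mul]) hgen H hkerH hW1
  rw [← wfg_iff (iN π₁ π₂) F s Φ (p2 π₁ π₂)] at hW
  exact wfg_pk (iN π₁ π₂) (iN_inj π₁ π₂) (p2 π₁ π₂) (p2_surj π₁ π₂ h1) (p2_ker π₁ π₂) F s Φ hcl2
    hW hG2

end main

end Pool.Agent.TH18.NN
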