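import Pool.Agent.TH18.NN.FPm

/-! The cone of a family of chain endomorphisms. -/

set_option autoImplicit false

namespace Pool.Agent.TH18.NN

section cone
variable {R : Type} [Ring R] (X : ℕ → ModuleCat.{0} R) (dl : ∀ j, X (j + 1) →ₗ[R] X j)
  {r : ℕ} (m : Fin r → ∀ j, X j →ₗ[R] X j)

/-- `∑ (m_s - 1)` -/
noncomputable def ff (j : ℕ) : (Fin r → X j) →ₗ[R] X j :=
  ∑ s, (m s j - LinearMap.id) ∘ₗ LinearMap.proj s

theorem ff_apply (j : ℕ) (y : Fin r → X j) : ff X m j y = ∑ s, (m s j (y s) - y s) := by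
  unfold ff
  rw [LinearMap.sum_apply]
  rfl

/-- the pointwise boundary -/
noncomputable def Yd (r j : ℕ) : (Fin r → X (j + 1)) →ₗ[R] (Fin r → X j) :=
  LinearMap.pi (fun s => dl j ∘ₗ LinearMap.proj s)

theorem Yd_apply (j : ℕ) (y : Fin r → X (j + 1)) (s : Fin r) : Yd X dl r j y s = dl j (y s) := rfl

/-- cycles of the cone -/
noncomputable def ZZ : ∀ j, Submodule R (X (j + 1) × (Fin r → X j))
  | 0 => LinearMap.ker (LinearMap.coprod (dl 0) (ff X m 0))
  | j + 1 => LinearMap.ker (LinearMap.coprod (dl (j + 1)) (ff X m (j + 1))) ⊓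
      LinearMap.ker (Yd X dl r j ∘ₗ LinearMap.snd R _ _)

theorem mem_ZZ_zero (x : X 1 × (Fin r → X 0)) :
    x ∈ ZZ X dl m 0 ↔ dl 0 x.1 + ff X m 0 x.2 = 0 := Iff.rfl

theorem mem_ZZ_succ (j : ℕ) (x : X (j + 1 + 1) × (Fin r → X (j + 1))) :
    x ∈ ZZ X dl m (j + 1) ↔ dl (j + 1) x.1 + ff X m (j + 1) x.2 = 0 ∧ Yd X dl r j x.2 = 0 := Iff.rfl

theorem ZZ_le (j : ℕ) (x : X (j + 1) × (Fin r → X j)) (hx : x ∈ ZZ X dl m j) :
    dl j x.1 + ff X m j x.2 = 0 := by
  cases j with
  | zero => exact hx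
  | succ j => exact hx.1

variable (n : ℕ)
  (h0 : Function.Surjective (dl 0))
  (hex : ∀ j, j + 1 ≤ n → ∀ x, dl j x = 0 ↔ ∃ y, dl (j + 1) y = x)
  (hm : ∀ s j, j ≤ n → ∀ x, dl j (m s (j + 1) x) = m s j (dl j x))

include hm in
theorem d_ff (j : ℕ) (hj : j ≤ n) (e : Fin r → X (j + 1)) :
    dl j (ff X m (j + 1) e) = ff X m j (Yd X dl r j e) := by
  rw [ff_apply, ff_apply, map_sum]
  refine Finset.sum_congr rfl fun s _ => ?_
  rw [map_sub, hm s j hj]
  rfl

include hex in
theorem Yd_Yd (j : ℕ) (hj : j + 1 ≤ n) (e : Fin r → X (j + 2)) :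
    Yd X dl r j (Yd X dl r (j + 1) e) = 0 := by
  funext s
  exact (hex j hj _).2 ⟨_, rfl⟩

/-- the map `(w, e) ↦ (dl w + f e, - dl e)` -/
noncomputable def pp (j : ℕ) : (X (j + 2) × (Fin r → X (j + 1))) →ₗ[R] (X (j + 1) × (Fin r → X j)) :=
  LinearMap.prod (LinearMap.coprod (dl (j + 1)) (ff X m (j + 1)))
    (- (Yd X dl r j ∘ₗ LinearMap.snd R _ _))

theorem pp_apply (j : ℕ) (x : X (j + 2) × (Fin r → X (j + 1))) :
    pp X dl m j x = (dl (j + 1) x.1 + ff X m (j + 1) x.2, - Yd X dl r j x.2) := rfl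

include h0 hex in
/-- lifting along `dl` -/
theorem Yd_lift (j : ℕ) (hj : j ≤ n) (x : X (j + 1) × (Fin r → X j)) (hx : x ∈ ZZ X dl m j) :
    ∃ e : Fin r → X (j + 1), Yd X dl r j e = - x.2 := by
  have : ∀ s, ∃ e : X (j + 1), dl j e = - x.2 s := by
    intro s
    cases j with
    | zero => exact h0 _
    | succ j =>
      have h1 := congrFun hx.2 s
      have h2 : dl j (- x.2 s) = 0 := by
        rw [map_neg]
        show - dl j (x.2 s) = 0
        rw [neg_eq_zero]
        exact h1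
      exact (hex j hj _).1 h2
  choose e he using this
  exact ⟨e, funext he⟩

include hex hm in
theorem pp_mem (j : ℕ) (hj : j + 1 ≤ n) (x : X (j + 2) × (Fin r → X (j + 1))) :
    pp X dl m j x ∈ ZZ X dl m j := by
  have h1 : dl j (pp X dl m j x).1 + ff X m j (pp X dl m j x).2 = 0 := by
    rw [pp_apply]
    show dl j (dl (j + 1) x.1 + ff X m (j + 1) x.2) + ff X m j (- Yd X dl r j x.2) = 0
    rw [map_add, (hex j hj _).2 ⟨_, rfl⟩, zero_add, d_ff X dl m n hm j (by omega), map_neg,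
      add_neg_cancel]
  cases j with
  | zero => exact h1
  | succ j =>
    refine ⟨h1, ?_⟩
    show Yd X dl r j (- Yd X dl r (j + 1) x.2) = 0
    rw [map_neg, Yd_Yd X dl n hex j (by omega), neg_zero]

/-- the surjection onto the cycles -/
noncomputable def pz (j : ℕ) (hj : j + 1 ≤ n) :
    (X (j + 2) × (Fin r → X (j + 1))) →ₗ[R] ZZ X dl m j :=
  (pp X dl m j).codRestrict _ (pp_mem X dl m n hex hm j hj)

include h0 in
theorem pz_surj (j : ℕ) (hj : j + 1 ≤ n) : Function.Surjective (pz X dl m n hex hm j hj) := by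
  rintro ⟨x, hx⟩
  obtain ⟨e, he⟩ := Yd_lift X dl m n h0 hex j (by omega) x hx
  have h1 : dl j (x.1 - ff X m (j + 1) e) = 0 := by
    rw [map_sub, d_ff X dl m n hm j (by omega), he, map_neg, sub_neg_eq_add]
    exact ZZ_le X dl m j x hx
  obtain ⟨w, hw⟩ := (hex j hj _).1 h1
  refine ⟨(w, e), Subtype.ext ?_⟩
  show pp X dl m j (w, e) = x
  rw [pp_apply]
  apply Prod.ext
  · show dl (j + 1) w + ff X m (j + 1) e = x.1
    rw [hw, sub_add_cancel]
  · show - Yd X dl r j e = x.2
    rw [he, neg_neg]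

theorem pz_ker (j : ℕ) (hj : j + 1 ≤ n) :
    LinearMap.ker (pz X dl m n hex hm j hj) = ZZ X dl m (j + 1) := by
  unfold pz
  rw [LinearMap.ker_codRestrict]
  ext x
  rw [LinearMap.mem_ker, pp_apply, mem_ZZ_succ, Prod.mk_eq_zero, neg_eq_zero]

variable (hfin : ∀ j, j ≤ n → ∀ l, FPm R l (X (j + 1)))

include hfin in
theorem dom_fp (j : ℕ) (hj : j + 1 ≤ n) (l : ℕ) : FPm R l (X (j + 2) × (Fin r → X (j + 1))) :=
  FPm.prod (hfin (j + 1) hj l) (FPm.pow (hfin j (by omega) l) r)

include h0 hex hm hfin in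
theorem step_down (j : ℕ) (hj : j + 1 ≤ n) (l : ℕ) (h : FPm R (l + 1) (ZZ X dl m j)) :
    FPm R l (ZZ X dl m (j + 1)) := by
  rw [← pz_ker X dl m n hex hm j hj]
  exact FPm.ker _ (pz_surj X dl m n h0 hex hm j hj) (dom_fp X n hfin j hj l) h

include h0 hex hm hfin in
theorem step_up (j : ℕ) (hj : j + 1 ≤ n) (l : ℕ) (h : FPm R l (ZZ X dl m (j + 1))) :
    FPm R (l + 1) (ZZ X dl m j) := by
  refine FPm.of_ker _ (pz_surj X dl m n h0 hex hm j hj) (dom_fp X n hfin j hj (l + 1)) ?_
  rw [pz_ker X dl m n hex hm j hj]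
  exact h

include h0 hex hm hfin in
theorem all_down (h : FPm R n (ZZ X dl m 0)) : ∀ j, j ≤ n → FPm R (n - j) (ZZ X dl m j) := by
  intro j
  induction j with
  | zero => intro _; exact h
  | succ j ih =>
    intro hj
    have h1 := ih (by omega)
    have e1 : n - j = (n - (j + 1)) + 1 := by omega
    rw [e1] at h1
    exact step_down X dl m n h0 hex hm hfin j hj _ h1

include h0 hex hm hfin in
theorem all_up (h : FPm R 0 (ZZ X dl m n)) : ∀ j, j ≤ n → FPm R j (ZZ X dl m (n - j)) := by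
  intro j
  induction j with
  | zero => intro _; exact h
  | succ j ih =>
    intro hj
    have h1 := ih (by omega)
    have e1 : n - j = (n - (j + 1)) + 1 := by omega
    rw [e1] at h1
    exact step_up X dl m n h0 hex hm hfin _ (by omega) _ h1

/-! ### the first step -/

variable {C : Type} [AddCommGroup C] [Module R C] (cc : X 0 →ₗ[R] C) (hcc : Function.Surjective cc)
  (hck : ∀ x, cc x = 0 ↔ ∃ y, ff X m 0 y = x)

/-- the projection onto the first coordinate -/
noncomputable def q0 : ZZ X dl m 0 →ₗ[R] LinearMap.ker (cc ∘ₗ dl 0) :=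
  (LinearMap.fst R _ _ ∘ₗ (ZZ X dl m 0).subtype).codRestrict _ (by
    rintro ⟨⟨x, y⟩, hxy⟩
    rw [mem_ZZ_zero] at hxy
    rw [LinearMap.mem_ker]
    show cc (dl 0 x) = 0
    rw [hck]
    refine ⟨- y, ?_⟩
    rw [map_neg]
    exact (eq_neg_of_add_eq_zero_left hxy).symm)

/-- the inclusion of the kernel -/
noncomputable def i0 : LinearMap.ker (ff X m 0) →ₗ[R] ZZ X dl m 0 :=
  (LinearMap.inr R _ _ ∘ₗ (LinearMap.ker (ff X m 0)).subtype).codRestrict _ (by
    rintro ⟨y, hy⟩
    rw [mem_ZZ_zero]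
    show dl 0 0 + ff X m 0 y = 0
    rw [map_zero, zero_add]; exact hy)

theorem i0_inj : Function.Injective (i0 X dl m) := by
  rintro ⟨x, hx⟩ ⟨y, hy⟩ h
  have h2 := congrArg (fun z : ZZ X dl m 0 => z.1.2) h
  exact Subtype.ext h2

theorem q0_surj : Function.Surjective (q0 X dl m cc hck) := by
  rintro ⟨x, hx⟩
  have hx' : cc (dl 0 x) = 0 := hx
  obtain ⟨y, hy⟩ := (hck _).1 hx'
  refine ⟨⟨(x, - y), ?_⟩, rfl⟩
  rw [mem_ZZ_zero]
  show dl 0 x + ff X m 0 (- y) = 0
  rw [map_neg, hy, add_neg_cancel]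

theorem i0_q0 : LinearMap.range (i0 X dl m) = LinearMap.ker (q0 X dl m cc hck) := by
  apply le_antisymm
  · rintro _ ⟨⟨x, hx⟩, rfl⟩
    rfl
  · rintro ⟨⟨x, y⟩, hxy⟩ h
    have hx : x = 0 := congrArg Subtype.val h
    subst hx
    rw [mem_ZZ_zero] at hxy
    have h2 : ff X m 0 y = 0 := by
      have : dl 0 0 + ff X m 0 y = 0 := hxy
      rwa [map_zero, zero_add] at this
    exact ⟨⟨y, h2⟩, rfl⟩

/-! ### the last step -/

/-- `ker dl_n / (∑ (m_s - 1) ker dl_n)` is finitely generated -/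
def WFG : Prop :=
  ∃ B : Finset (X (n + 1)), (∀ b ∈ B, dl n b = 0) ∧
    ∀ x, dl n x = 0 → ∃ e : Fin r → X (n + 1), (∀ s, dl n (e s) = 0) ∧
      x - ∑ s, (m s (n + 1) (e s) - e s) ∈ Submodule.span R (B : Set (X (n + 1)))

include h0 hex hm in
theorem wfg_of (h : FPm R 0 (ZZ X dl m n)) : WFG X dl m n := by
  classical
  rw [fpm_zero] at h
  obtain ⟨T, hT⟩ := h
  have h1 : ∀ t : ZZ X dl m n, ∃ e : Fin r → X (n + 1), Yd X dl r n e = - t.1.2 := fun t =>
    Yd_lift X dl m n h0 hex n le_rfl t.1 t.2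
  choose E hE using h1
  refine ⟨T.image (fun t => t.1.1 - ff X m (n + 1) (E t)), ?_, ?_⟩
  · intro b hb
    obtain ⟨t, _, rfl⟩ := Finset.mem_image.1 hb
    rw [map_sub, d_ff X dl m n hm n le_rfl, hE, map_neg, sub_neg_eq_add]
    exact ZZ_le X dl m n t.1 t.2
  · have key : ∀ z : ZZ X dl m n, z ∈ Submodule.span R (T : Set (ZZ X dl m n)) →
        ∃ e : Fin r → X (n + 1), Yd X dl r n e = - z.1.2 ∧ z.1.1 - ff X m (n + 1) e ∈
          Submodule.span R ((T.image (fun t => t.1.1 - ff X m (n + 1) (E t)) : Finset _) :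
            Set (X (n + 1))) := by
      intro z hz
      induction hz using Submodule.span_induction with
      | mem z hz =>
        refine ⟨E z, hE z, Submodule.subset_span ?_⟩
        exact Finset.mem_coe.2 (Finset.mem_image.2 ⟨z, hz, rfl⟩)
      | zero =>
        refine ⟨0, ?_, ?_⟩
        · rw [map_zero]; exact neg_zero.symm
        · rw [map_zero, sub_zero]; exact zero_mem _
      | add x y _ _ hx hy =>
        obtain ⟨e, he1, he2⟩ := hx
        obtain ⟨e', he1', he2'⟩ := hy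
        refine ⟨e + e', ?_, ?_⟩
        · rw [map_add, he1, he1']
          show - x.1.2 + - y.1.2 = - (x.1.2 + y.1.2)
          rw [neg_add]
        · rw [map_add]
          have : (x + y).1.1 - (ff X m (n + 1) e + ff X m (n + 1) e') =
            (x.1.1 - ff X m (n + 1) e) + (y.1.1 - ff X m (n + 1) e') := by
            show x.1.1 + y.1.1 - _ = _
            abel
          rw [this]
          exact add_mem he2 he2'
      | smul c x _ hx =>
        obtain ⟨e, he1, he2⟩ := hx
        refine ⟨c • e, ?_, ?_⟩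
        · rw [map_smul, he1]
          show c • - x.1.2 = - (c • x.1.2)
          rw [smul_neg]
        · rw [map_smul]
          have : (c • x).1.1 - c • ff X m (n + 1) e = c • (x.1.1 - ff X m (n + 1) e) := by
            show c • x.1.1 - _ = _
            rw [smul_sub]
          rw [this]
          exact Submodule.smul_mem _ c he2
    intro x hx
    have hmem : (x, (0 : Fin r → X n)) ∈ ZZ X dl m n := by
      have h2 : dl n x + ff X m n 0 = 0 := by rw [hx, map_zero, add_zero]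
      revert h2 x
      cases n with
      | zero => intro x _ h2; exact h2
      | succ n => intro x _ h2; exact (mem_ZZ_succ X dl m n _).2 ⟨h2, map_zero _⟩
    obtain ⟨e, he1, he2⟩ := key ⟨_, hmem⟩ (by rw [hT]; trivial)
    refine ⟨e, ?_, ?_⟩
    · intro s
      have h3 := congrFun he1 s
      have h4 : dl n (e s) = - (0 : X n) := h3
      rw [h4, neg_zero]
    · rw [← ff_apply]
      exact he2

include h0 hex hm hfin in
theorem of_wfg (h : WFG X dl m n) : FPm R 0 (ZZ X dl m n) := by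
  classical
  obtain ⟨B, hB, h1⟩ := h
  rw [fpm_zero]
  let g : (Fin r → X (n + 1)) →ₗ[R] (X (n + 1) × (Fin r → X n)) :=
    LinearMap.prod (ff X m (n + 1)) (- Yd X dl r n)
  have hg : ∀ e, g e = (ff X m (n + 1) e, - Yd X dl r n e) := fun e => rfl
  have hfg : (LinearMap.range g).FG := by
    have h2 : Module.Finite R (Fin r → X (n + 1)) := FPm.finite (FPm.pow (hfin n le_rfl 0) r)
    rw [← Submodule.map_top]
    exact Submodule.FG.map g h2.fg_top
  let T : Finset (X (n + 1) × (Fin r → X n)) := B.image (fun b => (b, 0))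
  have he : ZZ X dl m n = Submodule.span R (T : Set _) ⊔ LinearMap.range g := by
    apply le_antisymm
    · intro x hx
      obtain ⟨e, he⟩ := Yd_lift X dl m n h0 hex n le_rfl x hx
      have h3 : dl n (x.1 - ff X m (n + 1) e) = 0 := by
        rw [map_sub, d_ff X dl m n hm n le_rfl, he, map_neg, sub_neg_eq_add]
        exact ZZ_le X dl m n x hx
      obtain ⟨e', he1, he2⟩ := h1 _ h3
      rw [← ff_apply] at he2
      have h4 : ∀ y ∈ Submodule.span R (B : Set (X (n + 1))), (y, (0 : Fin r → X n)) ∈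
          Submodule.span R (T : Set _) := by
        intro y hy
        induction hy using Submodule.span_induction with
        | mem y hy =>
          exact Submodule.subset_span (Finset.mem_coe.2 (Finset.mem_image.2 ⟨y, hy, rfl⟩))
        | zero => exact zero_mem _
        | add a b _ _ ha hb =>
          have := add_mem ha hb
          rwa [Prod.mk_add_mk, add_zero] at this
        | smul c a _ ha =>
          have := Submodule.smul_mem _ c ha
          rwa [Prod.smul_mk, smul_zero] at this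
      have h5 : x = (x.1 - ff X m (n + 1) e - ff X m (n + 1) e', 0) + g (e + e') := by
        rw [hg]
        apply Prod.ext
        · show x.1 = x.1 - ff X m (n + 1) e - ff X m (n + 1) e' + ff X m (n + 1) (e + e')
          rw [map_add]; abel
        · show x.2 = 0 + - Yd X dl r n (e + e')
          have h6 : Yd X dl r n e' = 0 := funext he1
          rw [map_add, he, h6]
          simp
      rw [h5]
      exact Submodule.add_mem_sup (h4 _ he2) ⟨_, rfl⟩
    · apply sup_le
      · rw [Submodule.span_le]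
        intro x hx
        obtain ⟨b, hb, rfl⟩ := Finset.mem_image.1 (Finset.mem_coe.1 hx)
        have h2 : dl n b + ff X m n 0 = 0 := by rw [hB b hb, map_zero, add_zero]
        cases n with
        | zero => exact h2
        | succ n => exact (mem_ZZ_succ X dl m n _).2 ⟨h2, map_zero _⟩
      · rintro _ ⟨e, rfl⟩
        have h2 : dl n (ff X m (n + 1) e) + ff X m n (- Yd X dl r n e) = 0 := by
          rw [d_ff X dl m n hm n le_rfl, map_neg, add_neg_cancel]
        cases n with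
        | zero => exact h2
        | succ n =>
          refine ⟨h2, ?_⟩
          show Yd X dl r n (- Yd X dl r (n + 1) e) = 0
          rw [map_neg, Yd_Yd X dl (n + 1) hex n le_rfl, neg_zero]
  rw [he]
  exact Module.Finite.iff_fg.2 (Submodule.FG.sup ⟨T, rfl⟩ hfg)

include h0 hex hm hfin hcc hck in
/-- **From `C` to `W`.** -/
theorem wfg_main (hC : FPm R (n + 1) C) (hA : FPm R n (LinearMap.ker (ff X m 0))) :
    WFG X dl m n := by
  apply wfg_of X dl m n h0 hex hm
  have h1 : FPm R n (LinearMap.ker (cc ∘ₗ dl 0)) :=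
    FPm.ker _ (hcc.comp h0) (hfin 0 (Nat.zero_le _) n) hC
  have h2 : FPm R n (ZZ X dl m 0) := FPm.ext (i0 X dl m) (q0 X dl m cc hck) (i0_inj X dl m)
    (q0_surj X dl m cc hck) (i0_q0 X dl m cc hck) hA h1
  have h3 := all_down X dl m n h0 hex hm hfin h2 n le_rfl
  rwa [Nat.sub_self] at h3

end cone

section cone2
variable {R : Type} [Ring R] (X : ℕ → ModuleCat.{0} R) (dl : ∀ j, X (j + 1) →ₗ[R] X j)
  {r : ℕ} (m : Fin r → ∀ j, X j →ₗ[R] X j) (n : ℕ)
  (h0 : Function.Surjective (dl 0))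
  (hex : ∀ j, j + 1 ≤ n + 1 → ∀ x, dl j x = 0 ↔ ∃ y, dl (j + 1) y = x)
  (hm : ∀ s j, j ≤ n + 1 → ∀ x, dl j (m s (j + 1) x) = m s j (dl j x))
  (hfin : ∀ j, j ≤ n + 1 → ∀ l, FPm R l (X (j + 1)))
  {C : Type} [AddCommGroup C] [Module R C] (cc : X 0 →ₗ[R] C) (hcc : Function.Surjective cc)
  (hck : ∀ x, cc x = 0 ↔ ∃ y, ff X m 0 y = x)

include h0 hex hm hfin hcc hck in
/-- **From `W` to `C`.** -/
theorem main_wfg (hW : WFG X dl m (n + 1)) (hA : FPm R n (LinearMap.ker (ff X m 0))) :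
    FPm R (n + 2) C := by
  have h1 := of_wfg X dl m (n + 1) h0 hex hm hfin hW
  have h2 := all_up X dl m (n + 1) h0 hex hm hfin h1 (n + 1) le_rfl
  rw [Nat.sub_self] at h2
  have h3 : FPm R (n + 1) (LinearMap.ker (cc ∘ₗ dl 0)) :=
    FPm.quot (i0 X dl m) (q0 X dl m cc hck) (i0_inj X dl m)
      (q0_surj X dl m cc hck) (i0_q0 X dl m cc hck) hA h2
  exact FPm.of_ker (cc ∘ₗ dl 0) (hcc.comp h0) (hfin 0 (Nat.zero_le _) _) h3

end cone2

end Pool.Agent.TH18.NN
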