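import Mathlib

/-! Modules of type `FP_n` over a ring: the two out of three properties. -/

set_option autoImplicit false

namespace Pool.Agent.TH18.NN

/-- `M` is of type `FP_n`. -/
def FPm (R : Type) [Ring R] : ℕ → ∀ (M : Type) [AddCommGroup M] [Module R M], Prop
  | 0, M, _, _ => Module.Finite R M
  | n + 1, M, _, _ => ∃ (k : ℕ) (f : (Fin k → R) →ₗ[R] M), Function.Surjective f ∧
      FPm R n (LinearMap.ker f)

section basic
variable {R : Type} [Ring R]

theorem fpm_zero {M : Type} [AddCommGroup M] [Module R M] : FPm R 0 M ↔ Module.Finite R M := Iff.rfl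

theorem fpm_succ {n : ℕ} {M : Type} [AddCommGroup M] [Module R M] : FPm R (n + 1) M ↔
    ∃ (k : ℕ) (f : (Fin k → R) →ₗ[R] M), Function.Surjective f ∧ FPm R n (LinearMap.ker f) := Iff.rfl

theorem FPm.equiv {n : ℕ} : ∀ {M N : Type} [AddCommGroup M] [Module R M] [AddCommGroup N]
    [Module R N], (M ≃ₗ[R] N) → FPm R n M → FPm R n N := by
  cases n with
  | zero =>
    intro M N _ _ _ _ e h
    rw [fpm_zero] at *
    exact Module.Finite.equiv e
  | succ n =>
    intro M N _ _ _ _ e h
    obtain ⟨k, f, hf, hk⟩ := h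
    refine ⟨k, e.toLinearMap ∘ₗ f, e.surjective.comp hf, ?_⟩
    have : LinearMap.ker (e.toLinearMap ∘ₗ f) = LinearMap.ker f := LinearEquiv.ker_comp e f
    rw [this]; exact hk

theorem FPm.finite {n : ℕ} {M : Type} [AddCommGroup M] [Module R M] (h : FPm R n M) :
    Module.Finite R M := by
  cases n with
  | zero => exact h
  | succ n =>
    obtain ⟨k, f, hf, _⟩ := h
    exact Module.Finite.of_surjective f hf

theorem FPm.of_succ : ∀ {n : ℕ} {M : Type} [AddCommGroup M] [Module R M], FPm R (n + 1) M →
    FPm R n M := by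
  intro n
  induction n with
  | zero => intro M _ _ h; exact h.finite
  | succ n ih =>
    intro M _ _ h
    obtain ⟨k, f, hf, hk⟩ := h
    exact ⟨k, f, hf, ih hk⟩

theorem FPm.mono {n m : ℕ} (hnm : m ≤ n) {M : Type} [AddCommGroup M] [Module R M]
    (h : FPm R n M) : FPm R m M := by
  induction n with
  | zero => have : m = 0 := by omega
            subst this; exact h
  | succ n ih =>
    rcases Nat.lt_or_ge n m with h1 | h1
    · have : m = n + 1 := by omega
      subst this; exact h
    · exact ih h1 h.of_succ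

theorem FPm.subsingleton {n : ℕ} : ∀ {M : Type} [AddCommGroup M] [Module R M] [Subsingleton M],
    FPm R n M := by
  induction n with
  | zero => intro M _ _ _; rw [fpm_zero]; infer_instance
  | succ n ih =>
    intro M _ _ _
    exact ⟨0, 0, fun x => ⟨0, Subsingleton.elim _ _⟩, ih⟩

/-- free modules of finite rank -/
theorem FPm.free (n k : ℕ) : FPm R n (Fin k → R) := by
  cases n with
  | zero => rw [fpm_zero]; infer_instance
  | succ n =>
    refine ⟨k, LinearMap.id, Function.surjective_id, ?_⟩
    have : Subsingleton (LinearMap.ker (LinearMap.id : (Fin k → R) →ₗ[R] (Fin k → R))) := by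
      rw [LinearMap.ker_id]; infer_instance
    exact FPm.subsingleton

/-! ### extensions -/

/-- horseshoe -/
theorem FPm.ext : ∀ {n : ℕ} {A B C : Type} [AddCommGroup A] [Module R A] [AddCommGroup B]
    [Module R B] [AddCommGroup C] [Module R C] (i : A →ₗ[R] B) (p : B →ₗ[R] C),
    Function.Injective i → Function.Surjective p → LinearMap.range i = LinearMap.ker p →
    FPm R n A → FPm R n C → FPm R n B := by
  intro n
  induction n with
  | zero =>
    intro A B C _ _ _ _ _ _ i p hi hp hr hA hC
    rw [fpm_zero] at *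
    have hfgC : (⊤ : Submodule R C).FG := Module.Finite.fg_top
    have hfgA : (⊤ : Submodule R A).FG := Module.Finite.fg_top
    have h1 : (LinearMap.ker p).FG := by
      rw [← hr, ← Submodule.map_top]; exact hfgA.map i
    refine ⟨Submodule.fg_of_fg_map_of_fg_inf_ker p ?_ ?_⟩
    · rw [Submodule.map_top, LinearMap.range_eq_top.2 hp]; exact hfgC
    · rw [top_inf_eq]; exact h1
  | succ n ih =>
    intro A B C _ _ _ _ _ _ i p hi hp hr hA hC
    obtain ⟨a, f, hf, hfk⟩ := hA
    obtain ⟨c, g, hg, hgk⟩ := hC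
    -- lift g
    obtain ⟨g', hg'⟩ := Module.projective_lifting_property p g hp
    let F : ((Fin a → R) × (Fin c → R)) →ₗ[R] B := LinearMap.coprod (i ∘ₗ f) g'
    have hF : ∀ x, F x = i (f x.1) + g' x.2 := fun x => rfl
    have hgp : ∀ y, p (g' y) = g y := fun y => by rw [← hg']; rfl
    have hpi : ∀ y, p (i y) = 0 := fun y => by
      have : i y ∈ LinearMap.ker p := by rw [← hr]; exact ⟨y, rfl⟩
      exact this
    have hFs : Function.Surjective F := by
      intro b
      obtain ⟨y, hy⟩ := hg (p b)
      have h1 : b - g' y ∈ LinearMap.range i := by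
        rw [hr, LinearMap.mem_ker, map_sub, hgp, hy, sub_self]
      obtain ⟨z, hz⟩ := h1
      obtain ⟨x, rfl⟩ := hf z
      exact ⟨(x, y), by rw [hF]; show i (f x) + g' y = b; rw [hz, sub_add_cancel]⟩
    have key : FPm R n (LinearMap.ker F) := by
      let j : LinearMap.ker f →ₗ[R] LinearMap.ker F :=
        (LinearMap.inl R _ _ ∘ₗ (LinearMap.ker f).subtype).codRestrict _ (by
          rintro ⟨x, hx⟩
          rw [LinearMap.mem_ker, hF]
          show i (f x) + g' 0 = 0
          rw [LinearMap.mem_ker] at hx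
          rw [hx, map_zero, map_zero, add_zero])
      let q : LinearMap.ker F →ₗ[R] LinearMap.ker g :=
        (LinearMap.snd R _ _ ∘ₗ (LinearMap.ker F).subtype).codRestrict _ (by
          rintro ⟨⟨x, y⟩, hxy⟩
          rw [LinearMap.mem_ker, hF] at hxy
          rw [LinearMap.mem_ker]
          show g y = 0
          rw [← hgp]
          have h2 := congrArg p hxy
          rw [map_add, hpi, zero_add, map_zero] at h2
          exact h2)
      refine ih j q ?_ ?_ ?_ hfk hgk
      · rintro ⟨x, hx⟩ ⟨y, hy⟩ hxy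
        have h2 := congrArg (fun z : LinearMap.ker F => z.1.1) hxy
        exact Subtype.ext h2
      · rintro ⟨y, hy⟩
        rw [LinearMap.mem_ker] at hy
        have h1 : g' y ∈ LinearMap.range i := by
          rw [hr, LinearMap.mem_ker, hgp, hy]
        obtain ⟨z, hz⟩ := h1
        obtain ⟨x, hx⟩ := hf z
        refine ⟨⟨(-x, y), ?_⟩, rfl⟩
        rw [LinearMap.mem_ker, hF]
        show i (f (-x)) + g' y = 0
        rw [map_neg, hx, map_neg, hz, neg_add_cancel]
      · apply le_antisymm
        · rintro _ ⟨⟨x, hx⟩, rfl⟩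
          rfl
        · rintro ⟨⟨x, y⟩, hxy⟩ h
          have hy : y = 0 := congrArg Subtype.val h
          subst hy
          rw [LinearMap.mem_ker, hF] at hxy
          have h2 : i (f x) = 0 := by
            have : i (f x) + g' 0 = 0 := hxy
            rwa [map_zero, add_zero] at this
          have h3 : f x = 0 := hi (by rw [h2, map_zero])
          exact ⟨⟨x, h3⟩, rfl⟩
    -- transport to Fin (a + c)
    let e : (Fin (a + c) → R) ≃ₗ[R] ((Fin a → R) × (Fin c → R)) :=
      (LinearEquiv.funCongrLeft R R finSumFinEquiv).trans (LinearEquiv.sumArrowLequivProdArrow _ _ R R)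
    refine ⟨a + c, F ∘ₗ e.toLinearMap, hFs.comp e.surjective, ?_⟩
    have e2 : LinearMap.ker (F ∘ₗ e.toLinearMap) ≃ₗ[R] LinearMap.ker F := by
      refine LinearEquiv.ofBijective ((e.toLinearMap ∘ₗ (LinearMap.ker (F ∘ₗ e.toLinearMap)).subtype).codRestrict _
        (fun x => x.2)) ⟨?_, ?_⟩
      · intro x y hxy
        exact Subtype.ext (e.injective (congrArg Subtype.val hxy))
      · rintro ⟨y, hy⟩
        refine ⟨⟨e.symm y, ?_⟩, Subtype.ext ?_⟩
        · rw [LinearMap.mem_ker]
          show F (e (e.symm y)) = 0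
          rw [LinearEquiv.apply_symm_apply]; exact hy
        · show e (e.symm y) = y
          rw [LinearEquiv.apply_symm_apply]
    exact key.equiv e2.symm

/-- `A` of type `FP_n`, `B` of type `FP_{n+1}` imply `C` of type `FP_{n+1}`. -/
theorem FPm.quot {n : ℕ} {A B C : Type} [AddCommGroup A] [Module R A] [AddCommGroup B]
    [Module R B] [AddCommGroup C] [Module R C] (i : A →ₗ[R] B) (p : B →ₗ[R] C)
    (hi : Function.Injective i) (hp : Function.Surjective p)
    (hr : LinearMap.range i = LinearMap.ker p) (hA : FPm R n A) (hB : FPm R (n + 1) B) :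
    FPm R (n + 1) C := by
  obtain ⟨k, f, hf, hfk⟩ := hB
  refine ⟨k, p ∘ₗ f, hp.comp hf, ?_⟩
  let j : LinearMap.ker f →ₗ[R] LinearMap.ker (p ∘ₗ f) :=
    (LinearMap.ker f).subtype.codRestrict _ (by
      rintro ⟨x, hx⟩
      rw [LinearMap.mem_ker] at hx ⊢
      show p (f x) = 0
      rw [hx, map_zero])
  let q0 : LinearMap.ker (p ∘ₗ f) →ₗ[R] LinearMap.range i :=
    (f ∘ₗ (LinearMap.ker (p ∘ₗ f)).subtype).codRestrict _ (by
      rintro ⟨x, hx⟩
      rw [hr]; exact hx)
  let ei : A ≃ₗ[R] LinearMap.range i := LinearEquiv.ofInjective i hi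
  refine FPm.ext j (ei.symm.toLinearMap ∘ₗ q0) ?_ ?_ ?_ hfk hA
  · rintro ⟨x, hx⟩ ⟨y, hy⟩ hxy
    have h2 := congrArg Subtype.val hxy
    exact Subtype.ext h2
  · apply ei.symm.surjective.comp
    rintro ⟨y, hy⟩
    obtain ⟨x, hx⟩ := hf y
    refine ⟨⟨x, ?_⟩, Subtype.ext hx⟩
    rw [LinearMap.mem_ker]
    show p (f x) = 0
    rw [hx, ← LinearMap.mem_ker, ← hr]; exact hy
  · rw [LinearEquiv.ker_comp]
    apply le_antisymm
    · rintro _ ⟨⟨x, hx⟩, rfl⟩
      exact Subtype.ext hx
    · rintro ⟨x, hx⟩ h
      have h2 : f x = 0 := congrArg Subtype.val h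
      exact ⟨⟨x, h2⟩, rfl⟩

/-- `B` of type `FP_n`, `C` of type `FP_{n+1}` imply `A` of type `FP_n`. -/
theorem FPm.sub {n : ℕ} {A B C : Type} [AddCommGroup A] [Module R A] [AddCommGroup B]
    [Module R B] [AddCommGroup C] [Module R C] (i : A →ₗ[R] B) (p : B →ₗ[R] C)
    (hi : Function.Injective i) (hp : Function.Surjective p)
    (hr : LinearMap.range i = LinearMap.ker p) (hB : FPm R n B) (hC : FPm R (n + 1) C) :
    FPm R n A := by
  obtain ⟨k, f, hf, hfk⟩ := hC
  obtain ⟨g, hg⟩ := Module.projective_lifting_property p f hp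
  have hgp : ∀ y, p (g y) = f y := fun y => by rw [← hg]; rfl
  have hpi : ∀ y, p (i y) = 0 := fun y => by
    have : i y ∈ LinearMap.ker p := by rw [← hr]; exact ⟨y, rfl⟩
    exact this
  -- X = A × R^k → B, (a, y) ↦ i a + g y, with kernel ≅ ker f
  let F : (A × (Fin k → R)) →ₗ[R] B := LinearMap.coprod i g
  have hF : ∀ x, F x = i x.1 + g x.2 := fun x => rfl
  have hFs : Function.Surjective F := by
    intro b
    obtain ⟨y, hy⟩ := hf (p b)
    have h1 : b - g y ∈ LinearMap.range i := by
      rw [hr, LinearMap.mem_ker, map_sub, hgp, hy, sub_self]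
    obtain ⟨z, hz⟩ := h1
    exact ⟨(z, y), by rw [hF]; show i z + g y = b; rw [hz, sub_add_cancel]⟩
  have hX : FPm R n (A × (Fin k → R)) := by
    let q : LinearMap.ker F →ₗ[R] LinearMap.ker f :=
      (LinearMap.snd R _ _ ∘ₗ (LinearMap.ker F).subtype).codRestrict _ (by
        rintro ⟨⟨x, y⟩, hxy⟩
        rw [LinearMap.mem_ker, hF] at hxy
        rw [LinearMap.mem_ker]
        show f y = 0
        rw [← hgp]
        have h2 := congrArg p hxy
        rw [map_add, hpi, zero_add, map_zero] at h2
        exact h2)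
    have hq : Function.Bijective q := by
      constructor
      · rintro ⟨⟨x, y⟩, hxy⟩ ⟨⟨x', y'⟩, hxy'⟩ h
        have h2 : y = y' := congrArg Subtype.val h
        subst h2
        rw [LinearMap.mem_ker, hF] at hxy hxy'
        have h3 : i x = i x' := add_right_cancel (hxy.trans hxy'.symm)
        have h4 := hi h3
        subst h4
        rfl
      · rintro ⟨y, hy⟩
        rw [LinearMap.mem_ker] at hy
        have h1 : g y ∈ LinearMap.range i := by
          rw [hr, LinearMap.mem_ker, hgp, hy]
        obtain ⟨z, hz⟩ := h1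
        refine ⟨⟨(-z, y), ?_⟩, rfl⟩
        rw [LinearMap.mem_ker, hF]
        show i (-z) + g y = 0
        rw [map_neg, hz, neg_add_cancel]
    refine FPm.ext (LinearMap.ker F).subtype F Subtype.val_injective hFs (Submodule.range_subtype _)
      (hfk.equiv (LinearEquiv.ofBijective q hq).symm) hB
  -- A = X / R^k
  cases n with
  | zero =>
    rw [fpm_zero] at *
    exact Module.Finite.of_surjective (LinearMap.fst R A (Fin k → R)) LinearMap.fst_surjective
  | succ n =>
    refine FPm.quot (LinearMap.inr R A (Fin k → R)) (LinearMap.fst R A (Fin k → R))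
      LinearMap.inr_injective LinearMap.fst_surjective (LinearMap.range_inr R A _) (FPm.free n k) hX

/-- projective-type covers: kernels of surjections from modules of type `FP_n` -/
theorem FPm.ker {n : ℕ} {B C : Type} [AddCommGroup B] [Module R B] [AddCommGroup C] [Module R C]
    (p : B →ₗ[R] C) (hp : Function.Surjective p) (hB : FPm R n B) (hC : FPm R (n + 1) C) :
    FPm R n (LinearMap.ker p) :=
  FPm.sub (LinearMap.ker p).subtype p Subtype.val_injective hp (Submodule.range_subtype _) hB hC

theorem FPm.of_ker {n : ℕ} {B C : Type} [AddCommGroup B] [Module R B] [AddCommGroup C] [Module R C]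
    (p : B →ₗ[R] C) (hp : Function.Surjective p) (hB : FPm R (n + 1) B)
    (hk : FPm R n (LinearMap.ker p)) : FPm R (n + 1) C :=
  FPm.quot (LinearMap.ker p).subtype p Subtype.val_injective hp (Submodule.range_subtype _) hk hB

theorem FPm.prod {n : ℕ} {A B : Type} [AddCommGroup A] [Module R A] [AddCommGroup B] [Module R B]
    (hA : FPm R n A) (hB : FPm R n B) : FPm R n (A × B) :=
  FPm.ext (LinearMap.inl R A B) (LinearMap.snd R A B) LinearMap.inl_injective
    LinearMap.snd_surjective (LinearMap.range_inl R A B) hA hB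

theorem FPm.pow {n : ℕ} {A : Type} [AddCommGroup A] [Module R A] (hA : FPm R n A) :
    ∀ k : ℕ, FPm R n (Fin k → A) := by
  intro k
  induction k with
  | zero => exact FPm.subsingleton
  | succ k ih =>
    exact (FPm.prod hA ih).equiv (Fin.consLinearEquiv R (fun _ : Fin (k + 1) => A))

end basic

end Pool.Agent.TH18.NN
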