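import Pool.Agent.TH18.Ideal

/-! Base change of free modules; cosets. -/

set_option autoImplicit false

namespace Pool.Agent.TH18.NN

open Pool.Agent.W326.DU (IL ZG)
open Pool.Agent.W571.DU

section ind
variable {R R' R'' : Type} [Ring R] [Ring R'] [Ring R'']

/-- coefficientwise map -/
def vm (φ : R →+* R') {a : ℕ} (v : Fin a → R) : Fin a → R' := fun i => φ (v i)

theorem vm_add (φ : R →+* R') {a : ℕ} (v w : Fin a → R) : vm φ (v + w) = vm φ v + vm φ w := by
  funext i; exact map_add φ _ _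

theorem vm_sub (φ : R →+* R') {a : ℕ} (v w : Fin a → R) : vm φ (v - w) = vm φ v - vm φ w := by
  funext i; exact map_sub φ _ _

theorem vm_neg (φ : R →+* R') {a : ℕ} (v : Fin a → R) : vm φ (- v) = - vm φ v := by
  funext i; exact map_neg φ _

theorem vm_zero (φ : R →+* R') {a : ℕ} : vm φ (0 : Fin a → R) = 0 := by
  funext i; exact map_zero φ

theorem vm_smul (φ : R →+* R') {a : ℕ} (c : R) (v : Fin a → R) : vm φ (c • v) = φ c • vm φ v := by
  funext i; exact map_mul φ _ _

theorem vm_sum (φ : R →+* R') {a : ℕ} {ι : Type} (s : Finset ι) (v : ι → Fin a → R) :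
    vm φ (∑ i ∈ s, v i) = ∑ i ∈ s, vm φ (v i) := by
  classical
  induction s using Finset.induction_on with
  | empty => simp [vm_zero]
  | insert i s hi ih => rw [Finset.sum_insert hi, Finset.sum_insert hi, vm_add, ih]

theorem vm_single (φ : R →+* R') {a : ℕ} (i : Fin a) :
    vm φ (Pi.single i 1 : Fin a → R) = Pi.single i 1 := by
  funext j
  unfold vm
  by_cases h : j = i
  · subst h; rw [Pi.single_eq_same, Pi.single_eq_same, map_one]
  · rw [Pi.single_eq_of_ne h, Pi.single_eq_of_ne h, map_zero]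

theorem vm_vm (φ : R →+* R') (ψ : R' →+* R'') {a : ℕ} (v : Fin a → R) :
    vm ψ (vm φ v) = vm (ψ.comp φ) v := rfl

/-- extension of scalars of a linear map of free modules -/
noncomputable def ind (φ : R →+* R') {a b : ℕ} (f : (Fin a → R) →ₗ[R] (Fin b → R)) :
    (Fin a → R') →ₗ[R'] (Fin b → R') :=
  Fintype.linearCombination R' (fun i => vm φ (f (Pi.single i 1)))

theorem ind_apply (φ : R →+* R') {a b : ℕ} (f : (Fin a → R) →ₗ[R] (Fin b → R)) (x : Fin a → R') :
    ind φ f x = ∑ i, x i • vm φ (f (Pi.single i 1)) := by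
  unfold ind
  rw [Fintype.linearCombination_apply]

theorem pi_sum {a : ℕ} (v : Fin a → R) : v = ∑ i, v i • (Pi.single i 1 : Fin a → R) := by
  funext j
  rw [Finset.sum_apply, Finset.sum_eq_single j]
  · simp
  · intro i _ hi
    simp [Pi.single_eq_of_ne hi.symm]
  · intro h; exact absurd (Finset.mem_univ _) h

theorem ind_vm (φ : R →+* R') {a b : ℕ} (f : (Fin a → R) →ₗ[R] (Fin b → R)) (v : Fin a → R) :
    ind φ f (vm φ v) = vm φ (f v) := by
  rw [ind_apply]
  conv_rhs => rw [pi_sum v, map_sum, vm_sum]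
  refine Finset.sum_congr rfl fun i _ => ?_
  rw [map_smul, vm_smul]
  rfl

theorem lin_ext {M : Type} [AddCommGroup M] [Module R M] {a : ℕ} (f g : (Fin a → R) →ₗ[R] M)
    (h : ∀ i, f (Pi.single i 1) = g (Pi.single i 1)) : f = g := by
  apply LinearMap.ext
  intro x
  rw [pi_sum x, map_sum, map_sum]
  refine Finset.sum_congr rfl fun i _ => ?_
  rw [map_smul, map_smul, h]

theorem ind_single (φ : R →+* R') {a b : ℕ} (f : (Fin a → R) →ₗ[R] (Fin b → R)) (i : Fin a) :
    ind φ f (Pi.single i 1) = vm φ (f (Pi.single i 1)) := by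
  rw [← vm_single φ, ind_vm]

theorem ind_comp (φ : R →+* R') {a b c : ℕ} (g : (Fin b → R) →ₗ[R] (Fin c → R))
    (f : (Fin a → R) →ₗ[R] (Fin b → R)) : ind φ (g ∘ₗ f) = ind φ g ∘ₗ ind φ f := by
  apply lin_ext
  intro i
  rw [ind_single]
  show _ = ind φ g (ind φ f (Pi.single i 1))
  rw [ind_single, ind_vm]
  rfl

theorem ind_ind (φ : R →+* R') (ψ : R' →+* R'') {a b : ℕ} (f : (Fin a → R) →ₗ[R] (Fin b → R)) :
    ind ψ (ind φ f) = ind (ψ.comp φ) f := by
  apply lin_ext
  intro i
  rw [ind_single, ind_single, ind_single, vm_vm]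

theorem ind_id (φ : R →+* R') {a : ℕ} :
    ind φ (LinearMap.id : (Fin a → R) →ₗ[R] (Fin a → R)) = LinearMap.id := by
  apply lin_ext
  intro i
  rw [ind_single]
  exact vm_single φ i

end ind

/-! ### cosets -/

section coset
variable {N G : Type} [Group N] [Group G] (ι : N →* G) (hι : Function.Injective ι)

theorem pi_mul_push (g : G) (x : ZG G) (y : ZG N) :
    BC.pi ℤ ι hι g (x * push ι y) = BC.pi ℤ ι hι g x * y := by
  induction y using MonoidAlgebra.induction_on with
  | of h => rw [push_of]; exact BC.pi_mul ℤ ι hι g x h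
  | add a b ha hb => rw [map_add, mul_add, map_add, ha, hb, mul_add]
  | smul r a ha => rw [map_zsmul, mul_smul_comm, map_zsmul, ha, mul_smul_comm]

/-- coset components of vectors -/
noncomputable def pv (g : G) {a : ℕ} (x : Fin a → ZG G) : Fin a → ZG N :=
  fun i => BC.pi ℤ ι hι g (x i)

theorem pv_ind (g : G) {a b : ℕ} (f : (Fin a → ZG N) →ₗ[ZG N] (Fin b → ZG N)) (x : Fin a → ZG G) :
    pv ι hι g (ind (push ι) f x) = f (pv ι hι g x) := by
  rw [ind_apply]
  conv_rhs => rw [pi_sum (pv ι hι g x), map_sum]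
  funext j
  show BC.pi ℤ ι hι g ((∑ i, x i • vm (push ι) (f (Pi.single i 1))) j) = _
  rw [Finset.sum_apply, Finset.sum_apply, map_sum]
  refine Finset.sum_congr rfl fun i _ => ?_
  rw [map_smul]
  show BC.pi ℤ ι hι g (x i * push ι (f (Pi.single i 1) j)) = _
  rw [pi_mul_push]
  rfl

theorem pv_decomp {a : ℕ} (x : Fin a → ZG G) : ∃ Q : Finset (G ⧸ ι.range),
    x = ∑ q ∈ Q, MonoidAlgebra.of ℤ G q.out • vm (push ι) (pv ι hι q.out x) := by
  classical
  let Q : Finset (G ⧸ ι.range) := Finset.univ.biUnion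
    (fun i => (x i).coeff.support.image (fun a : G => (QuotientGroup.mk a : G ⧸ ι.range)))
  have hdec : ∀ i, x i = ∑ q ∈ Q, MonoidAlgebra.of ℤ G q.out * push ι (BC.pi ℤ ι hι q.out (x i)) := by
    intro i
    have h1 := BC.decomp ℤ ι hι (x i)
    have h2 : ∑ q ∈ (x i).coeff.support.image (fun a : G => (QuotientGroup.mk a : G ⧸ ι.range)),
        MonoidAlgebra.of ℤ G q.out * push ι (BC.pi ℤ ι hι q.out (x i)) =
        ∑ q ∈ Q, MonoidAlgebra.of ℤ G q.out * push ι (BC.pi ℤ ι hι q.out (x i)) := by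
      apply Finset.sum_subset
      · intro q hq
        exact Finset.mem_biUnion.2 ⟨i, Finset.mem_univ _, hq⟩
      · intro q _ hq
        have h3 : BC.pi ℤ ι hι q.out (x i) = 0 := by
          apply MonoidAlgebra.ext
          ext y
          rw [BC.pi_coeff]
          show (x i).coeff (q.out * ι y) = 0
          by_contra hne
          apply hq
          rw [Finset.mem_image]
          refine ⟨q.out * ι y, Finsupp.mem_support_iff.2 hne, ?_⟩
          conv_rhs => rw [← QuotientGroup.out_eq' q]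
          rw [QuotientGroup.eq]
          exact ⟨y⁻¹, by rw [map_inv]; group⟩
        rw [h3, map_zero, mul_zero]
    rw [← h2]
    exact h1
  refine ⟨Q, ?_⟩
  funext i
  rw [Finset.sum_apply]
  exact hdec i

include hι in
/-- every vector is a sum of translates of vectors over the subgroup, with components in `K` if all
components of the vector are in `K` -/
theorem mem_closure_coset {a : ℕ} (K : Set (Fin a → ZG N)) (x : Fin a → ZG G)
    (hx : ∀ g, pv ι hι g x ∈ K) :
    x ∈ AddSubmonoid.closure {y : Fin a → ZG G | ∃ g : G, ∃ z ∈ K,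
      y = MonoidAlgebra.of ℤ G g • vm (push ι) z} := by
  obtain ⟨Q, hQ⟩ := pv_decomp ι hι x
  rw [hQ]
  refine AddSubmonoid.sum_mem _ fun q _ => ?_
  exact AddSubmonoid.subset_closure ⟨q.out, _, hx _, rfl⟩

include hι in
/-- kernel elements are sums of translates -/
theorem ker_closure {a b : ℕ} (f : (Fin a → ZG N) →ₗ[ZG N] (Fin b → ZG N)) (x : Fin a → ZG G)
    (hx : ind (push ι) f x = 0) :
    x ∈ AddSubmonoid.closure {y : Fin a → ZG G | ∃ g : G, ∃ z : Fin a → ZG N, f z = 0 ∧
      y = MonoidAlgebra.of ℤ G g • vm (push ι) z} := by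
  refine mem_closure_coset ι hι {z | f z = 0} x fun g => ?_
  show f (pv ι hι g x) = 0
  rw [← pv_ind, hx]
  funext i
  exact map_zero _

include hι in
/-- exactness is preserved by base change -/
theorem ind_exact {a b c : ℕ} (f : (Fin b → ZG N) →ₗ[ZG N] (Fin c → ZG N))
    (f' : (Fin a → ZG N) →ₗ[ZG N] (Fin b → ZG N)) (h : ∀ z, f z = 0 ↔ ∃ y, f' y = z)
    (x : Fin b → ZG G) : ind (push ι) f x = 0 ↔ ∃ y, ind (push ι) f' y = x := by
  constructor
  · intro hx
    have h1 := ker_closure ι hι f x hx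
    have h2 : AddSubmonoid.closure {y : Fin b → ZG G | ∃ g : G, ∃ z : Fin b → ZG N, f z = 0 ∧
        y = MonoidAlgebra.of ℤ G g • vm (push ι) z} ≤
        (LinearMap.range (ind (push ι) f')).toAddSubmonoid := by
      rw [AddSubmonoid.closure_le]
      rintro _ ⟨g, z, hz, rfl⟩
      obtain ⟨y, rfl⟩ := (h z).1 hz
      exact ⟨MonoidAlgebra.of ℤ G g • vm (push ι) y, by rw [map_smul, ind_vm]⟩
    exact h2 h1
  · rintro ⟨y, rfl⟩
    have h2 : ind (push ι) f ∘ₗ ind (push ι) f' = 0 := by
      rw [← ind_comp]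
      apply lin_ext
      intro i
      rw [ind_single]
      have : (f ∘ₗ f') (Pi.single i 1) = 0 := (h _).2 ⟨_, rfl⟩
      rw [this]
      exact vm_zero _
    exact LinearMap.congr_fun h2 y

end coset

end Pool.Agent.TH18.NN
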