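import Pool.Agent.TH18.NN.Pack

/-! Comparison of the fibre product with the first factor. -/

set_option autoImplicit false

namespace Pool.Agent.TH18.NN

open Pool.Agent.W326.DU (IL ZG)
open Pool.Agent.W571.DU

theorem push_comp {A B C : Type} [Group A] [Group B] [Group C] (f : A →* B) (g : B →* C) :
    (push g).comp (push f) = push (g.comp f) := by
  apply RingHom.ext
  intro x
  show push g (push f x) = push (g.comp f) x
  induction x using MonoidAlgebra.induction_on with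
  | of a => rw [push_of, push_of, push_of]; rfl
  | add a b ha hb => rw [map_add, map_add, map_add, ha, hb]
  | smul r a ha => rw [map_zsmul, map_zsmul, map_zsmul, ha]

theorem tot_of_single {G : Type} [Group G] {a b : ℕ} (f : (Fin a → ZG G) →ₗ[ZG G] (Fin b → ZG G))
    (h : ∀ i, tot (f (Pi.single i 1)) = 1) (x : Fin a → ZG G) : tot (f x) = tot x := by
  conv_lhs => rw [pi_sum x, map_sum, tot_sum]
  unfold tot
  refine Finset.sum_congr rfl fun i _ => ?_
  rw [map_smul]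
  have := tot_smul (x i) (f (Pi.single i 1))
  rw [h, mul_one] at this
  exact this

section wfg
variable {N G : Type} [Group N] [Group G] (ι : N →* G) {n : ℕ} (F : NRes N (n + 1))
  {r : ℕ} (s : Fin r → G) (Φ : ∀ i, CM ι F (s i))

/-- unfolded form of `WFG` -/
def WFG' : Prop :=
  ∃ B : Finset (Fin (F.k (n + 1)) → ZG G), (∀ b ∈ B, DD ι F n b = 0) ∧
    ∀ x, DD ι F n x = 0 → ∃ e : Fin r → (Fin (F.k (n + 1)) → ZG G), (∀ i, DD ι F n (e i) = 0) ∧
      x - ∑ i, ((Φ i).μ (n + 1) (e i) - e i) ∈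
        Submodule.span (ZG G) (B : Set (Fin (F.k (n + 1)) → ZG G))

theorem wfg_iff {Q : Type} [Group Q] (π : G →* Q) :
    WFG (XX π F) (xd ι π F) (mm ι π F s Φ) (n + 1) ↔ WFG' ι F s Φ := Iff.rfl

end wfg

section link
variable {N P G : Type} [Group N] [Group P] [Group G] (ι : N →* P)
  (hN : ∀ (g : P) (ν : N), ∃ ν' : N, ι ν * g = g * ι ν')
  (p : P →* G) {n : ℕ} (F : NRes N (n + 1)) {r : ℕ} (s : Fin r → P) (Φ : ∀ i, CM ι F (s i))

theorem DD_push (j : ℕ) : DD (p.comp ι) F j = ind (push p) (DD ι F j) := by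
  unfold DD
  rw [ind_ind, push_comp]

/-- push forward of chain endomorphisms -/
noncomputable def CM.push {g : P} (Ψ : CM ι F g) : CM (p.comp ι) F (p g) where
  μ j := ind (TH18.push p) (Ψ.μ j)
  typ j := by
    intro i
    obtain ⟨v, hv⟩ := Ψ.typ j i
    refine ⟨v, ?_⟩
    rw [ind_single, hv, vm_smul, push_of, vm_vm, push_comp]
  aug := by
    apply tot_of_single
    intro i
    rw [ind_single, tot_vm, Ψ.aug, tot_single]
  comm j hj x := by
    have h1 : DD ι F j ∘ₗ Ψ.μ (j + 1) = Ψ.μ j ∘ₗ DD ι F j := LinearMap.ext (Ψ.comm j hj)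
    have h2 : DD (p.comp ι) F j ∘ₗ ind (TH18.push p) (Ψ.μ (j + 1)) =
        ind (TH18.push p) (Ψ.μ j) ∘ₗ DD (p.comp ι) F j := by
      rw [DD_push, ← ind_comp, ← ind_comp, h1]
    exact LinearMap.congr_fun h2 x

theorem CM.cyc {g : P} (Ψ : CM ι F g) (x : Fin (F.k (n + 1)) → ZG P) (hx : DD ι F n x = 0) :
    DD ι F n (Ψ.μ (n + 1) x) = 0 := by
  rw [Ψ.comm n le_rfl, hx, map_zero]

/-- the map `e ↦ ∑ (μ_i e_i - e_i)` on cycles -/
noncomputable def gg : (Fin r → LinearMap.ker (DD ι F n)) →ₗ[ZG P] (Fin (F.k (n + 1)) → ZG P) :=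
  ∑ i, (((Φ i).μ (n + 1) - LinearMap.id) ∘ₗ (LinearMap.ker (DD ι F n)).subtype) ∘ₗ LinearMap.proj i

theorem gg_apply (e : Fin r → LinearMap.ker (DD ι F n)) :
    gg ι F s Φ e = ∑ i, ((Φ i).μ (n + 1) (e i).1 - (e i).1) := by
  unfold gg
  rw [LinearMap.sum_apply]
  rfl

theorem U1 (i : Fin r) (x : Fin (F.k (n + 1)) → ZG P) (hx : DD ι F n x = 0) :
    (Φ i).μ (n + 1) x - x ∈ LinearMap.range (gg ι F s Φ) := by
  refine ⟨Pi.single i ⟨x, hx⟩, ?_⟩
  rw [gg_apply, Finset.sum_eq_single i]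
  · rw [Pi.single_eq_same]
  · intro j _ hj
    rw [Pi.single_eq_of_ne hj]
    show (Φ j).μ (n + 1) 0 - 0 = 0
    rw [map_zero, sub_zero]
  · intro h; exact absurd (Finset.mem_univ _) h

include hN in
theorem U2 (l : List (Fin r)) : ∃ Ψ : CM ι F (l.map s).prod, ∀ x, DD ι F n x = 0 →
    Ψ.μ (n + 1) x - x ∈ LinearMap.range (gg ι F s Φ) := by
  induction l with
  | nil =>
    refine ⟨CM.one ι F, fun x _ => ?_⟩
    show x - x ∈ _
    rw [sub_self]; exact zero_mem _
  | cons i l ih =>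
    obtain ⟨Ψ, hΨ⟩ := ih
    refine ⟨CM.comp ι F hN (Φ i) Ψ, fun x hx => ?_⟩
    show Ψ.μ (n + 1) ((Φ i).μ (n + 1) x) - x ∈ _
    have h1 := hΨ _ ((Φ i).cyc ι F x hx)
    have h2 := U1 ι F s Φ i x hx
    have := add_mem h1 h2
    rwa [sub_add_sub_cancel] at this

include hN in
theorem U3 (hι : Function.Injective ι) (h : P) (hh : ∀ ν : N, ι ν * h = h * ι ν)
    (l : List (Fin r)) (ν : N) (hl : h = (l.map s).prod * ι ν) :
    ∃ T : Finset (Fin (F.k (n + 1)) → ZG P), (∀ b ∈ T, DD ι F n b = 0) ∧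
      ∀ x, DD ι F n x = 0 → rm h _ x - x ∈ LinearMap.range (gg ι F s Φ) ⊔
        Submodule.span (ZG P) (T : Set (Fin (F.k (n + 1)) → ZG P)) := by
  classical
  obtain ⟨Ψ, hΨ⟩ := U2 ι hN F s Φ l
  subst hl
  obtain ⟨τ, h1, h2⟩ := homotopy_top ι F hN hι (rmCM ι F _ hh) (Ψ.change ι F ν)
  refine ⟨Finset.univ.image (fun i => τ (Pi.single i 1)), ?_, ?_⟩
  · intro b hb
    obtain ⟨i, _, rfl⟩ := Finset.mem_image.1 hb
    exact h1 _
  · intro x hx
    have h3 := h2 x hx
    have h4 : rm ((l.map s).prod * ι ν) _ x - x = (Ψ.μ (n + 1) x - x) + τ x := by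
      rw [← h3]
      show rm ((l.map s).prod * ι ν) _ x - x = (Ψ.μ (n + 1) x - x) +
        (rm ((l.map s).prod * ι ν) _ x - Ψ.μ (n + 1) x)
      abel
    rw [h4]
    refine Submodule.add_mem_sup (hΨ x hx) ?_
    rw [pi_sum x, map_sum]
    refine Submodule.sum_mem _ fun i _ => ?_
    rw [map_smul]
    exact Submodule.smul_mem _ _ (Submodule.subset_span
      (Finset.mem_coe.2 (Finset.mem_image.2 ⟨i, Finset.mem_univ _, rfl⟩)))

theorem rm_mul (g h : P) (a : ℕ) (x : Fin a → ZG P) : rm (g * h) a x = rm h a (rm g a x) := by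
  funext i
  rw [rm_apply, rm_apply, rm_apply, map_mul, mul_assoc]

theorem rm_one (a : ℕ) (x : Fin a → ZG P) : rm (1 : P) a x = x := by
  funext i
  rw [rm_apply, map_one, mul_one]

theorem rm_cyc (h : P) (hh : ∀ ν : N, ι ν * h = h * ι ν) (x : Fin (F.k (n + 1)) → ZG P)
    (hx : DD ι F n x = 0) : DD ι F n (rm h _ x) = 0 := (rmCM ι F h hh).cyc ι F x hx

/-- the elements acting trivially modulo `U` -/
def H0 (U : Submodule (ZG P) (Fin (F.k (n + 1)) → ZG P)) : Subgroup P where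
  carrier := {h | (∀ ν : N, ι ν * h = h * ι ν) ∧ ∀ x, DD ι F n x = 0 → rm h _ x - x ∈ U}
  one_mem' := ⟨fun ν => by rw [mul_one, one_mul], fun x _ => by
    rw [rm_one, sub_self]; exact zero_mem _⟩
  mul_mem' := by
    rintro g h ⟨h1, h2⟩ ⟨h3, h4⟩
    refine ⟨fun ν => by rw [← mul_assoc, h1, mul_assoc, h3, mul_assoc], fun x hx => ?_⟩
    rw [rm_mul]
    have := add_mem (h4 _ (rm_cyc ι F g h1 x hx)) (h2 x hx)
    rwa [sub_add_sub_cancel] at this
  inv_mem' := by
    rintro h ⟨h1, h2⟩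
    have h3 : ∀ ν : N, ι ν * h⁻¹ = h⁻¹ * ι ν := by
      intro ν
      rw [eq_inv_mul_iff_mul_eq, ← mul_assoc, ← h1, mul_inv_cancel_right]
    refine ⟨h3, fun x hx => ?_⟩
    have h4 := h2 _ (rm_cyc ι F h⁻¹ h3 x hx)
    rw [← rm_mul, inv_mul_cancel, rm_one] at h4
    have := neg_mem h4
    rwa [neg_sub] at this

theorem mem_H0 (U : Submodule (ZG P) (Fin (F.k (n + 1)) → ZG P)) (h : P) : h ∈ H0 ι F U ↔
    (∀ ν : N, ι ν * h = h * ι ν) ∧ ∀ x, DD ι F n x = 0 → rm h _ x - x ∈ U := Iff.rfl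

include hN in
theorem comm_conj (h : P) (hh : ∀ ν : N, ι ν * h = h * ι ν) (g : P) (ν : N) :
    ι ν * (g * h * g⁻¹) = g * h * g⁻¹ * ι ν := by
  obtain ⟨ν', hν⟩ := hN g ν
  have h2 : g⁻¹ * ι ν = ι ν' * g⁻¹ := by
    rw [inv_mul_eq_iff_eq_mul, ← mul_assoc, ← hν, mul_inv_cancel_right]
  calc ι ν * (g * h * g⁻¹) = (ι ν * g) * h * g⁻¹ := by group
    _ = g * (ι ν' * h) * g⁻¹ := by rw [hν]; group
    _ = g * h * (ι ν' * g⁻¹) := by rw [hh]; group
    _ = g * h * (g⁻¹ * ι ν) := by rw [h2]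
    _ = g * h * g⁻¹ * ι ν := by group

theorem mu_rm {g : P} {a : ℕ} (f : (Fin a → ZG P) →ₗ[ZG P] (Fin a → ZG P)) (hf : TypeG ι g f)
    (h : P) (hh : ∀ ν : N, ι ν * h = h * ι ν) (x : Fin a → ZG P) :
    f (rm (g * h * g⁻¹) a x) = rm h a (f x) := by
  have h1 : f ∘ₗ rm (g * h * g⁻¹) a = rm h a ∘ₗ f := by
    apply lin_ext
    intro i
    show f (rm (g * h * g⁻¹) a (Pi.single i 1)) = rm h a (f (Pi.single i 1))
    rw [rm_single, map_smul]
    obtain ⟨v, hv⟩ := hf i
    rw [hv, map_smul, rm_vm ι h hh, smul_smul, smul_smul, ← map_mul, ← map_mul,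
      inv_mul_cancel_right]
  exact LinearMap.congr_fun h1 x

include hN in
theorem H0_conj (U : Submodule (ZG P) (Fin (F.k (n + 1)) → ZG P))
    (hU : LinearMap.range (gg ι F s Φ) ≤ U) (i : Fin r) (h : P) (hh : h ∈ H0 ι F U) :
    s i * h * (s i)⁻¹ ∈ H0 ι F U := by
  obtain ⟨h1, h2⟩ := hh
  have h3 := comm_conj ι hN h h1 (s i)
  refine ⟨h3, fun x hx => ?_⟩
  have h4 := hU (U1 ι F s Φ i _ (rm_cyc ι F _ h3 x hx))
  rw [mu_rm ι _ ((Φ i).typ (n + 1)) h h1] at h4
  have h5 := h2 _ ((Φ i).cyc ι F x hx)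
  have h6 := hU (U1 ι F s Φ i x hx)
  have h7 := add_mem (sub_mem h5 h4) h6
  have e : rm (s i * h * (s i)⁻¹) (F.k (n + 1)) x - x =
    rm h (F.k (n + 1)) ((Φ i).μ (n + 1) x) - (Φ i).μ (n + 1) x -
      (rm h (F.k (n + 1)) ((Φ i).μ (n + 1) x) - rm (s i * h * (s i)⁻¹) (F.k (n + 1)) x) +
      ((Φ i).μ (n + 1) x - x) := by abel
  rw [e]
  exact h7

include hN in
theorem H0_conj_all (U : Submodule (ZG P) (Fin (F.k (n + 1)) → ZG P))
    (hU : LinearMap.range (gg ι F s Φ) ≤ U)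
    (hgen : ∀ g : P, ∃ (l : List (Fin r)) (ν : N), g = (l.map s).prod * ι ν)
    (g h : P) (hh : h ∈ H0 ι F U) : g * h * g⁻¹ ∈ H0 ι F U := by
  obtain ⟨l, ν, rfl⟩ := hgen g
  have h1 : (l.map s).prod * ι ν * h * ((l.map s).prod * ι ν)⁻¹ =
      (l.map s).prod * h * ((l.map s).prod)⁻¹ := by
    rw [mul_assoc (l.map s).prod, hh.1 ν]; group
  rw [h1]
  clear h1
  induction l with
  | nil =>
    have : ((([] : List (Fin r)).map s).prod * h * ((([] : List (Fin r)).map s).prod)⁻¹) = h := by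
      simp
    rw [this]; exact hh
  | cons i l ih =>
    have : (((i :: l).map s).prod * h * (((i :: l).map s).prod)⁻¹) =
        s i * ((l.map s).prod * h * ((l.map s).prod)⁻¹) * (s i)⁻¹ := by
      rw [List.map_cons, List.prod_cons]; group
    rw [this]
    exact H0_conj ι hN F s Φ U hU i _ ih

include hN in
theorem ker_le_H0 (U : Submodule (ZG P) (Fin (F.k (n + 1)) → ZG P))
    (hU : LinearMap.range (gg ι F s Φ) ≤ U)
    (hgen : ∀ g : P, ∃ (l : List (Fin r)) (ν : N), g = (l.map s).prod * ι ν)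
    (H : Set P) (hH : ∀ h ∈ H, h ∈ H0 ι F U) (hker : p.ker ≤ Subgroup.normalClosure H) :
    p.ker ≤ H0 ι F U := by
  refine hker.trans ?_
  unfold Subgroup.normalClosure
  rw [Subgroup.closure_le]
  intro x hx
  rw [Group.mem_conjugatesOfSet_iff] at hx
  obtain ⟨a, ha, hc⟩ := hx
  obtain ⟨g, hg⟩ := isConj_iff.1 hc
  rw [← hg]
  exact H0_conj_all ι hN F s Φ U hU hgen g a (hH a ha)

/-! ### the section -/

variable (hι' : Function.Injective (p.comp ι)) (sec : G → P) (hsec : ∀ γ, p (sec γ) = γ) (hsecN : ∀ γ ν, sec (γ * p (ι ν)) = sec γ * ι ν)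

/-- the additive section -/
noncomputable def tau' : ZG G →+ ZG P :=
  { toFun := MonoidAlgebra.mapDomain sec
    map_zero' := by simp
    map_add' := MonoidAlgebra.mapDomain_add _ }

theorem tau'_of (x : G) : tau' sec (MonoidAlgebra.of ℤ G x) = MonoidAlgebra.of ℤ P (sec x) := by
  show MonoidAlgebra.mapDomain sec (MonoidAlgebra.single x 1) = MonoidAlgebra.single _ 1
  rw [MonoidAlgebra.mapDomain_single]

include hsecN in
theorem tau'_mul (γ : G) (c : ZG N) : tau' sec (MonoidAlgebra.of ℤ G γ * push p (push ι c)) =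
    MonoidAlgebra.of ℤ P (sec γ) * push ι c := by
  induction c using MonoidAlgebra.induction_on with
  | of ν => rw [push_of, push_of, ← map_mul, tau'_of, hsecN, map_mul]
  | add a b ha hb => rw [map_add, map_add, mul_add, map_add, ha, hb, mul_add]
  | smul r a ha =>
    rw [map_zsmul, map_zsmul, mul_smul_comm, map_zsmul, ha, mul_smul_comm]

/-- the additive section on vectors -/
noncomputable def Ev (a : ℕ) : (Fin a → ZG P) →+ (Fin a → ZG P) where
  toFun x := fun i => tau' sec (push p (x i))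
  map_zero' := by
    funext i
    show tau' sec (push p 0) = 0
    rw [map_zero, map_zero]
  map_add' x y := by
    funext i
    show tau' sec (push p (x i + y i)) = tau' sec (push p (x i)) + tau' sec (push p (y i))
    rw [map_add, map_add]

include hsec hsecN in
theorem sub_sec (hι : Function.Injective ι) (U : Submodule (ZG P) (Fin (F.k (n + 1)) → ZG P))
    (hU : p.ker ≤ H0 ι F U) (x : Fin (F.k (n + 1)) → ZG P) (hx : DD ι F n x = 0) :
    x - Ev p sec _ x ∈ U := by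
  have h1 := ker_closure ι hι (F.d n) x hx
  have key : AddSubmonoid.closure {y : Fin (F.k (n + 1)) → ZG P | ∃ g : P,
      ∃ z : Fin (F.k (n + 1)) → ZG N, F.d n z = 0 ∧
      y = MonoidAlgebra.of ℤ P g • vm (push ι) z} ≤
      U.toAddSubmonoid.comap (AddMonoidHom.id _ - Ev p sec (F.k (n + 1))) := by
    rw [AddSubmonoid.closure_le]
    rintro _ ⟨g, z, hz, rfl⟩
    show MonoidAlgebra.of ℤ P g • vm (push ι) z -
      Ev p sec _ (MonoidAlgebra.of ℤ P g • vm (push ι) z) ∈ U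
    have h2 : Ev p sec _ (MonoidAlgebra.of ℤ P g • vm (push ι) z) =
        MonoidAlgebra.of ℤ P (sec (p g)) • vm (push ι) z := by
      funext i
      show tau' sec (push p (MonoidAlgebra.of ℤ P g * push ι (z i))) =
        MonoidAlgebra.of ℤ P (sec (p g)) * push ι (z i)
      rw [map_mul, push_of, tau'_mul ι p sec hsecN]
    rw [h2]
    have h3 : (sec (p g))⁻¹ * g ∈ p.ker := by
      rw [MonoidHom.mem_ker, map_mul, map_inv, hsec, inv_mul_cancel]
    obtain ⟨h4, h5⟩ := hU h3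
    have h6 : DD ι F n (MonoidAlgebra.of ℤ P (sec (p g)) • vm (push ι) z) = 0 := by
      rw [map_smul]
      have : DD ι F n (vm (push ι) z) = vm (push ι) (F.d n z) := ind_vm _ _ _
      rw [this, hz, vm_zero, smul_zero]
    have h7 := h5 _ h6
    rw [map_smul, rm_vm ι _ h4, smul_smul, ← map_mul, mul_inv_cancel_left] at h7
    exact h7
  exact key h1

include hsec hsecN in
/-- cycles with trivial image -/
theorem ker_vm (hι : Function.Injective ι) (U : Submodule (ZG P) (Fin (F.k (n + 1)) → ZG P))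
    (hU : p.ker ≤ H0 ι F U) (x : Fin (F.k (n + 1)) → ZG P) (hx : DD ι F n x = 0)
    (hx0 : vm (push p) x = 0) : x ∈ U := by
  have h1 := sub_sec ι p F sec hsec hsecN hι U hU x hx
  have h2 : Ev p sec _ x = 0 := by
    funext i
    have : push p (x i) = 0 := congrFun hx0 i
    show tau' sec (push p (x i)) = 0
    rw [this, map_zero]
  rwa [h2, sub_zero] at h1

theorem vm_DD (x : Fin (F.k (n + 1)) → ZG P) :
    vm (push p) (DD ι F n x) = DD (p.comp ι) F n (vm (push p) x) := by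
  rw [DD_push, ind_vm]

include hι' in
/-- lifting cycles -/
theorem lift_cyc (hp : Function.Surjective p)
    (y : Fin (F.k (n + 1)) → ZG G) (hy : DD (p.comp ι) F n y = 0) :
    ∃ x, DD ι F n x = 0 ∧ vm (push p) x = y := by
  have h1 := ker_closure (p.comp ι) hι' (F.d n) y hy
  let K : AddSubmonoid (Fin (F.k (n + 1)) → ZG G) :=
    { carrier := {y | ∃ x, DD ι F n x = 0 ∧ vm (push p) x = y}
      zero_mem' := ⟨0, map_zero _, vm_zero _⟩
      add_mem' := by
        rintro _ _ ⟨x, hx, rfl⟩ ⟨y, hy, rfl⟩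
        exact ⟨x + y, by rw [map_add, hx, hy, add_zero], vm_add _ _ _⟩ }
  have key : AddSubmonoid.closure {y : Fin (F.k (n + 1)) → ZG G | ∃ g : G,
      ∃ z : Fin (F.k (n + 1)) → ZG N, F.d n z = 0 ∧
      y = MonoidAlgebra.of ℤ G g • vm (push (p.comp ι)) z} ≤ K := by
    rw [AddSubmonoid.closure_le]
    rintro _ ⟨γ, z, hz, rfl⟩
    obtain ⟨g, rfl⟩ := hp γ
    refine ⟨MonoidAlgebra.of ℤ P g • vm (push ι) z, ?_, ?_⟩
    · rw [map_smul]
      have : DD ι F n (vm (push ι) z) = vm (push ι) (F.d n z) := ind_vm _ _ _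
      rw [this, hz, vm_zero, smul_zero]
    · rw [vm_smul, push_of, vm_vm, push_comp]
  exact key h1

include hN hsec hsecN hι' in
/-- **The comparison.** -/
theorem link (hι : Function.Injective ι) (hp : Function.Surjective p)
    (hcomm : ∀ h ∈ p.ker, ∀ ν : N, ι ν * h = h * ι ν)
    (hgen : ∀ g : P, ∃ (l : List (Fin r)) (ν : N), g = (l.map s).prod * ι ν)
    (H : Finset P) (hH : p.ker = Subgroup.normalClosure (H : Set P))
    (hW : WFG' (p.comp ι) F (fun i => p (s i)) (fun i => (Φ i).push ι p F)) :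
    WFG' ι F s Φ := by
  classical
  -- finitely many elements of the kernel
  have h1 : ∀ h : P, ∃ T : Finset (Fin (F.k (n + 1)) → ZG P), (∀ b ∈ T, DD ι F n b = 0) ∧
      (h ∈ H → ∀ x, DD ι F n x = 0 → rm h _ x - x ∈ LinearMap.range (gg ι F s Φ) ⊔
        Submodule.span (ZG P) (T : Set (Fin (F.k (n + 1)) → ZG P))) := by
    intro h
    by_cases hh : h ∈ H
    · have h2 : h ∈ p.ker := by rw [hH]; exact Subgroup.subset_normalClosure hh
      obtain ⟨l, ν, hl⟩ := hgen h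
      obtain ⟨T, hT1, hT2⟩ := U3 ι hN F s Φ hι h (hcomm h h2) l ν hl
      exact ⟨T, hT1, fun _ => hT2⟩
    · exact ⟨∅, by simp, fun h' => absurd h' hh⟩
  choose T hT1 hT2 using h1
  obtain ⟨B, hB1, hB2⟩ := hW
  -- lift the generators
  have h3 : ∀ b : Fin (F.k (n + 1)) → ZG G, ∃ x, DD ι F n x = 0 ∧ (b ∈ B → vm (push p) x = b) := by
    intro b
    by_cases hb : b ∈ B
    · obtain ⟨x, hx1, hx2⟩ := lift_cyc ι p F hι' hp b (hB1 b hb)
      exact ⟨x, hx1, fun _ => hx2⟩
    · exact ⟨0, map_zero _, fun h => absurd h hb⟩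
  choose L hL1 hL2 using h3
  let B' : Finset (Fin (F.k (n + 1)) → ZG P) := B.image L ∪ H.biUnion T
  have hB' : ∀ b ∈ B', DD ι F n b = 0 := by
    intro b hb
    rcases Finset.mem_union.1 hb with hb | hb
    · obtain ⟨c, _, rfl⟩ := Finset.mem_image.1 hb
      exact hL1 c
    · obtain ⟨h, _, hb⟩ := Finset.mem_biUnion.1 hb
      exact hT1 h b hb
  let U : Submodule (ZG P) (Fin (F.k (n + 1)) → ZG P) :=
    LinearMap.range (gg ι F s Φ) ⊔ Submodule.span (ZG P) (B' : Set (Fin (F.k (n + 1)) → ZG P))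
  have hU0 : LinearMap.range (gg ι F s Φ) ≤ U := le_sup_left
  have hUH : p.ker ≤ H0 ι F U := by
    refine ker_le_H0 ι hN p F s Φ U hU0 hgen H ?_ hH.le
    intro h hh
    have h2 : h ∈ p.ker := by rw [hH]; exact Subgroup.subset_normalClosure hh
    refine ⟨hcomm h h2, fun x hx => ?_⟩
    have hsub : Submodule.span (ZG P) (T h : Set (Fin (F.k (n + 1)) → ZG P)) ≤
        Submodule.span (ZG P) (B' : Set (Fin (F.k (n + 1)) → ZG P)) := by
      apply Submodule.span_mono
      intro b hb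
      exact Finset.mem_coe.2 (Finset.mem_union_right _ (Finset.mem_biUnion.2 ⟨h, hh, hb⟩))
    exact (sup_le (hU0) (hsub.trans le_sup_right) : LinearMap.range (gg ι F s Φ) ⊔
      Submodule.span (ZG P) (T h : Set (Fin (F.k (n + 1)) → ZG P)) ≤ U) (hT2 h hh x hx)
  -- all cycles are in `U`
  have hall : ∀ x, DD ι F n x = 0 → x ∈ U := by
    intro x hx
    obtain ⟨e, he1, he2⟩ := hB2 (vm (push p) x) (by rw [← vm_DD, hx, vm_zero])
    have h4 : ∀ i, ∃ e' : Fin (F.k (n + 1)) → ZG P, DD ι F n e' = 0 ∧ vm (push p) e' = e i :=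
      fun i => lift_cyc ι p F hι' hp (e i) (he1 i)
    choose e' he1' he2' using h4
    -- lift the remainder
    have h5 : ∀ y ∈ Submodule.span (ZG G) (B : Set (Fin (F.k (n + 1)) → ZG G)),
        ∃ y' ∈ U, DD ι F n y' = 0 ∧ vm (push p) y' = y := by
      intro y hy
      induction hy using Submodule.span_induction with
      | mem y hy =>
        refine ⟨L y, ?_, hL1 y, hL2 y hy⟩
        apply Submodule.mem_sup_right
        apply Submodule.subset_span
        exact Finset.mem_coe.2 (Finset.mem_union_left _ (Finset.mem_image.2 ⟨y, hy, rfl⟩))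
      | zero => exact ⟨0, zero_mem _, map_zero _, vm_zero _⟩
      | add a b _ _ ha hb =>
        obtain ⟨a', ha1, ha2, rfl⟩ := ha
        obtain ⟨b', hb1, hb2, rfl⟩ := hb
        exact ⟨a' + b', add_mem ha1 hb1, by rw [map_add, ha2, hb2, add_zero], vm_add _ _ _⟩
      | smul c a _ ha =>
        obtain ⟨a', ha1, ha2, rfl⟩ := ha
        obtain ⟨c', rfl⟩ := push_surj p hp c
        exact ⟨c' • a', Submodule.smul_mem _ _ ha1, by rw [map_smul, ha2, smul_zero],
          vm_smul _ _ _⟩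
    obtain ⟨y', hy1, hy2, hy3⟩ := h5 _ he2
    let w : Fin (F.k (n + 1)) → ZG P := gg ι F s Φ (fun i => ⟨e' i, he1' i⟩)
    have hw : w = ∑ i, ((Φ i).μ (n + 1) (e' i) - e' i) := gg_apply ι F s Φ _
    have hwU : w ∈ U := hU0 ⟨_, rfl⟩
    have hwc : DD ι F n w = 0 := by
      rw [hw, map_sum]
      refine Finset.sum_eq_zero fun i _ => ?_
      rw [map_sub, (Φ i).cyc ι F _ (he1' i), he1' i, sub_zero]
    have hwv : vm (push p) w = ∑ i, (((Φ i).push ι p F).μ (n + 1) (e i) - e i) := by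
      rw [hw, vm_sum]
      refine Finset.sum_congr rfl fun i _ => ?_
      rw [vm_sub, he2']
      congr 1
      show _ = ind (TH18.push p) ((Φ i).μ (n + 1)) (e i)
      rw [← he2' i, ind_vm]
    have h6 : x - w - y' ∈ U := by
      refine ker_vm ι p F sec hsec hsecN hι U hUH _ ?_ ?_
      · rw [map_sub, map_sub, hx, hwc, hy2, sub_zero, sub_zero]
      · rw [vm_sub, vm_sub, hwv, hy3, sub_self]
    have h7 := add_mem (add_mem h6 hy1) hwU
    have e7 : x - w - y' + y' + w = x := by abel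
    rwa [e7] at h7
  refine ⟨B', hB', fun x hx => ?_⟩
  obtain ⟨a, ⟨e, rfl⟩, b, hb, hab⟩ := Submodule.mem_sup.1 (hall x hx)
  refine ⟨fun i => (e i).1, fun i => (e i).2, ?_⟩
  rw [← gg_apply, ← hab, add_sub_cancel_left]
  exact hb

end link

end Pool.Agent.TH18.NN
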