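import Pool.Agent.TH18.NN.Mu
import Pool.Agent.TH18.NN.Cone

/-! Assembling the cone for group extensions. -/

set_option autoImplicit false

namespace Pool.Agent.TH18.NN

open Pool.Agent.W326.DU (IL ZG)
open Pool.Agent.W571.DU

/-! ### complexes and `FP_n` -/

section cx
variable {R : Type} [Ring R] (X : ℕ → ModuleCat.{0} R) (dl : ∀ j, X (j + 1) →ₗ[R] X j) (n : ℕ)
  (h0 : Function.Surjective (dl 0))
  (hex : ∀ j, j + 1 ≤ n → ∀ x, dl j x = 0 ↔ ∃ y, dl (j + 1) y = x)
  (hfin : ∀ j, j ≤ n → ∀ l, FPm R l (X (j + 1)))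

include hex hfin in
theorem range_fp : ∀ i, i ≤ n → FPm R i (LinearMap.range (dl (n - i))) := by
  intro i
  induction i with
  | zero =>
    intro _
    rw [fpm_zero]
    have : Module.Finite R (X (n - 0 + 1)) := (hfin (n - 0) (by omega) 0)
    infer_instance
  | succ i ih =>
    intro hi
    have h1 := ih (by omega)
    have e1 : n - i = (n - (i + 1)) + 1 := by omega
    rw [e1] at h1
    refine FPm.of_ker (dl (n - (i + 1))).rangeRestrict (LinearMap.surjective_rangeRestrict _)
      (hfin _ (by omega) _) ?_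
    rw [LinearMap.ker_rangeRestrict]
    have h2 : LinearMap.ker (dl (n - (i + 1))) = LinearMap.range (dl (n - (i + 1) + 1)) := by
      ext x
      exact hex _ (by omega) x
    rw [h2]; exact h1

include h0 hex hfin in
theorem fpm_of_complex : FPm R n (X 0) := by
  have h1 := range_fp X dl n hex hfin n le_rfl
  rw [Nat.sub_self] at h1
  have e : LinearMap.range (dl 0) ≃ₗ[R] X 0 := by
    rw [LinearMap.range_eq_top.2 h0]
    exact Submodule.topEquiv
  exact h1.equiv e

end cx

/-! ### inflation -/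

section infl
variable {R R' : Type} [Ring R] [Ring R'] (ψ : R →+* R')

/-- a module regarded as a module over another ring -/
def Infl (_ : R →+* R') (M : Type) : Type := M

instance (M : Type) [AddCommGroup M] : AddCommGroup (Infl ψ M) := inferInstanceAs (AddCommGroup M)
instance (M : Type) [AddCommGroup M] [Module R' M] : Module R (Infl ψ M) := Module.compHom M ψ

theorem Infl_smul (M : Type) [AddCommGroup M] [Module R' M] (c : R) (x : M) :
    c • (show Infl ψ M from x) = (show Infl ψ M from ψ c • x) := rfl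

/-- a linear map regarded as a linear map over another ring -/
def inflMap {M M' : Type} [AddCommGroup M] [Module R' M] [AddCommGroup M'] [Module R' M']
    (f : M →ₗ[R'] M') : Infl ψ M →ₗ[R] Infl ψ M' where
  toFun x := f x
  map_add' x y := f.map_add x y
  map_smul' c x := f.map_smul (ψ c) x

theorem infl_finite {M : Type} [AddCommGroup M] [Module R' M] (h : FPm R 0 (Infl ψ R'))
    (hM : FPm R' 0 M) : FPm R 0 (Infl ψ M) := by
  rw [fpm_zero] at *
  obtain ⟨k, f, hf⟩ := Module.Finite.exists_fin' R' M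
  let f' : (Fin k → Infl ψ R') →ₗ[R] Infl ψ M :=
    { toFun := fun x => f x
      map_add' := fun x y => f.map_add x y
      map_smul' := fun c x => f.map_smul (ψ c) x }
  exact Module.Finite.of_surjective f' hf

theorem infl_fp : ∀ {n : ℕ} {M : Type} [AddCommGroup M] [Module R' M], FPm R n (Infl ψ R') →
    FPm R' n M → FPm R n (Infl ψ M) := by
  intro n
  induction n with
  | zero => intro M _ _ h hM; exact infl_finite ψ h hM
  | succ n ih =>
    intro M _ _ h hM
    obtain ⟨k, f, hf, hk⟩ := hM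
    have h1 : FPm R n (Infl ψ (LinearMap.ker f)) := ih h.of_succ hk
    let f' : (Fin k → Infl ψ R') →ₗ[R] Infl ψ M :=
      { toFun := fun x => f x
        map_add' := fun x y => f.map_add x y
        map_smul' := fun c x => f.map_smul (ψ c) x }
    let i' : Infl ψ (LinearMap.ker f) →ₗ[R] (Fin k → Infl ψ R') :=
      { toFun := fun x => (LinearMap.ker f).subtype x
        map_add' := fun x y => rfl
        map_smul' := fun c x => rfl }
    refine FPm.quot i' f' ?_ hf ?_ h1 (FPm.pow h k)
    · intro x y hxy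
      exact Subtype.ext hxy
    · ext x
      constructor
      · rintro ⟨y, rfl⟩
        exact y.2
      · intro hx
        exact ⟨⟨x, hx⟩, rfl⟩

end infl

/-! ### the complex of an extension -/

section pack
variable {N G Q : Type} [Group N] [Group G] [Group Q] (ι : N →* G) (hι : Function.Injective ι)
  (π : G →* Q) (hπ : Function.Surjective π) (hker : ∀ g, π g = 1 ↔ ∃ ν, ι ν = g)
  {n : ℕ} (F : NRes N (n + 1))

include hker in
theorem normal_of (g : G) (ν : N) : ∃ ν' : N, ι ν * g = g * ι ν' := by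
  obtain ⟨ν', h⟩ := (hker (g⁻¹ * ι ν * g)).1 (by
    rw [map_mul, map_mul, (hker (ι ν)).2 ⟨ν, rfl⟩, mul_one, map_inv, inv_mul_cancel])
  exact ⟨ν', by rw [h]; group⟩

/-- the augmentation to `ℤ[Q]` -/
noncomputable def epsQ (a : ℕ) : (Fin a → ZG G) →ₗ[ZG G] Infl (push π) (ZG Q) where
  toFun x := (show ZG Q from ∑ j, push π (x j))
  map_add' x y := by
    show (∑ j, push π (x j + y j) : ZG Q) = (∑ j, push π (x j)) + ∑ j, push π (y j)
    rw [← Finset.sum_add_distrib]
    exact Finset.sum_congr rfl fun i _ => map_add _ _ _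
  map_smul' c x := by
    show (∑ j, push π (c * x j) : ZG Q) = push π c * ∑ j, push π (x j)
    rw [Finset.mul_sum]
    exact Finset.sum_congr rfl fun i _ => map_mul _ _ _

theorem epsQ_apply (a : ℕ) (x : Fin a → ZG G) :
    epsQ π a x = (show Infl (push π) (ZG Q) from (∑ j, push π (x j) : ZG Q)) := rfl

include hker in
theorem push_push_one (c : ZG N) : push π (push ι c) = (augR N c : ZG Q) := by
  induction c using MonoidAlgebra.induction_on with
  | of ν => rw [push_of, push_of, augR_of, (hker _).2 ⟨ν, rfl⟩, map_one, Int.cast_one]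
  | add a b ha hb => rw [map_add, map_add, map_add, ha, hb, Int.cast_add]
  | smul r a ha =>
    rw [map_zsmul, map_zsmul, map_zsmul, ha]
    simp

include hker in
theorem epsQ_vm {a : ℕ} (g : G) (v : Fin a → ZG N) :
    epsQ π a (MonoidAlgebra.of ℤ G g • vm (push ι) v) =
      (show Infl (push π) (ZG Q) from (MonoidAlgebra.of ℤ Q (π g) * (tot v : ZG Q) : ZG Q)) := by
  rw [map_smul]
  show push π (MonoidAlgebra.of ℤ G g) * (∑ j, push π (push ι (v j)) : ZG Q) = _
  rw [push_of]
  simp only [push_push_one ι π hker]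
  rw [← Int.cast_sum]
  rfl

include hker in
/-- the coefficient of a coset -/
theorem aug_pi (g : G) (x : ZG G) :
    augR N (BC.pi ℤ ι hι g x) = (push π x).coeff (π g) := by
  classical
  induction x using MonoidAlgebra.induction_on with
  | of a =>
    rw [push_of]
    by_cases h : π a = π g
    · obtain ⟨ν, hν⟩ := (hker (g⁻¹ * a)).1 (by rw [map_mul, map_inv, h, inv_mul_cancel])
      have h1 : BC.pi ℤ ι hι g (MonoidAlgebra.of ℤ G a) = MonoidAlgebra.of ℤ N ν := by
        apply MonoidAlgebra.ext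
        ext y
        rw [BC.pi_coeff, MonoidAlgebra.of_apply, MonoidAlgebra.of_apply, MonoidAlgebra.coeff_single,
          MonoidAlgebra.coeff_single, Finsupp.single_apply, Finsupp.single_apply]
        congr 1
        apply propext
        constructor
        · intro h2
          apply hι
          rw [hν, h2, inv_mul_cancel_left]
        · rintro rfl
          rw [hν, mul_inv_cancel_left]
      rw [h1, augR_of, MonoidAlgebra.of_apply, MonoidAlgebra.coeff_single, h, Finsupp.single_eq_same]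
    · have h1 : BC.pi ℤ ι hι g (MonoidAlgebra.of ℤ G a) = 0 := by
        apply MonoidAlgebra.ext
        ext y
        rw [BC.pi_coeff, MonoidAlgebra.of_apply, MonoidAlgebra.coeff_single, Finsupp.single_apply,
          if_neg]
        · rfl
        · rintro rfl
          apply h
          rw [map_mul, (hker (ι y)).2 ⟨y, rfl⟩, mul_one]
      rw [h1, map_zero, MonoidAlgebra.of_apply, MonoidAlgebra.coeff_single, Finsupp.single_apply,
        if_neg h]
  | add a b ha hb => rw [map_add, map_add, map_add, ha, hb]; rfl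
  | smul r a ha => rw [map_zsmul, map_zsmul, map_zsmul, ha]; rfl

include hι hker in
theorem epsQ_exact (x : Fin (F.k 0) → ZG G) : epsQ π _ x = 0 ↔ ∃ y, DD ι F 0 y = x := by
  constructor
  · intro hx
    have h1 : ∀ g, tot (pv ι hι g x) = 0 := by
      intro g
      have h2 : (∑ j, push π (x j) : ZG Q) = 0 := hx
      have h3 := congrArg (fun z : ZG Q => z.coeff (π g)) h2
      have h4 : (∑ j, push π (x j) : ZG Q).coeff (π g) = ∑ j, (push π (x j)).coeff (π g) := by
        rw [MonoidAlgebra.coeff_sum, Finsupp.finsetSum_apply]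
      rw [h4] at h3
      show ∑ j, augR N (BC.pi ℤ ι hι g (x j)) = 0
      rw [Finset.sum_congr rfl fun j _ => aug_pi ι hι π hker g (x j)]
      exact h3
    have h2 := mem_closure_coset ι hι {z | tot z = 0} x h1
    have h3 : AddSubmonoid.closure {y : Fin (F.k 0) → ZG G | ∃ g : G, ∃ z ∈ {z | tot z = 0},
        y = MonoidAlgebra.of ℤ G g • vm (push ι) z} ≤
        (LinearMap.range (DD ι F 0)).toAddSubmonoid := by
      rw [AddSubmonoid.closure_le]
      rintro _ ⟨g, z, hz, rfl⟩
      obtain ⟨y, rfl⟩ := (F.ex0 (Nat.succ_pos _) z).1 hz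
      exact ⟨MonoidAlgebra.of ℤ G g • vm (push ι) y, by rw [map_smul]; congr 1; exact ind_vm _ _ _⟩
    exact h3 h2
  · rintro ⟨y, rfl⟩
    have h2 : epsQ π (F.k 0) ∘ₗ DD ι F 0 = 0 := by
      apply lin_ext
      intro i
      show epsQ π (F.k 0) (DD ι F 0 (Pi.single i 1)) = 0
      have h3 : DD ι F 0 (Pi.single i 1) = vm (push ι) (F.d 0 (Pi.single i 1)) := ind_single _ _ _
      have h4 : tot (F.d 0 (Pi.single i 1)) = 0 := (F.ex0 (Nat.succ_pos _) _).2 ⟨_, rfl⟩
      have h5 := epsQ_vm ι π hker 1 (F.d 0 (Pi.single i 1))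
      rw [map_one, one_smul] at h5
      rw [h3, h5, h4, Int.cast_zero, mul_zero]
      rfl
    exact LinearMap.congr_fun h2 y

include hπ in
theorem epsQ_surj : Function.Surjective (epsQ π (F.k 0)) := by
  intro y
  have hk : 0 < F.k 0 := by
    rcases Nat.eq_zero_or_pos (F.k 0) with h | h
    · obtain ⟨x, hx⟩ := F.one
      exfalso
      have : IsEmpty (Fin (F.k 0)) := by rw [h]; infer_instance
      rw [tot, Finset.univ_eq_empty, Finset.sum_empty] at hx
      exact absurd hx (by norm_num)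
    · exact h
  obtain ⟨c, hc⟩ := push_surj π hπ (show ZG Q from y)
  refine ⟨Pi.single ⟨0, hk⟩ c, ?_⟩
  show (∑ j, push π ((Pi.single ⟨0, hk⟩ c : Fin (F.k 0) → ZG G) j) : ZG Q) = y
  rw [Finset.sum_eq_single ⟨0, hk⟩]
  · rw [Pi.single_eq_same]; exact hc
  · intro j _ hj
    rw [Pi.single_eq_of_ne hj, map_zero]
  · intro h; exact absurd (Finset.mem_univ _) h

/-- the modules of the complex -/
noncomputable def XX : ℕ → ModuleCat.{0} (ZG G)
  | 0 => ModuleCat.of (ZG G) (Infl (push π) (ZG Q))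
  | j + 1 => ModuleCat.of (ZG G) (Fin (F.k j) → ZG G)

/-- the differentials -/
noncomputable def xd : ∀ j, XX π F (j + 1) →ₗ[ZG G] XX π F j
  | 0 => epsQ π (F.k 0)
  | j + 1 => DD ι F j

/-- right multiplication on `ℤ[Q]` -/
noncomputable def rq (q : Q) : Infl (push π) (ZG Q) →ₗ[ZG G] Infl (push π) (ZG Q) where
  toFun x := ((show ZG Q from x) * MonoidAlgebra.of ℤ Q q : ZG Q)
  map_add' x y := add_mul (show ZG Q from x) y _
  map_smul' c x := mul_assoc (push π c) (show ZG Q from x) _

theorem rq_apply (q : Q) (x : Infl (push π) (ZG Q)) :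
    rq π q x = (show Infl (push π) (ZG Q) from
      ((show ZG Q from x) * MonoidAlgebra.of ℤ Q q : ZG Q)) := rfl

variable {r : ℕ} (s : Fin r → G) (Φ : ∀ i, CM ι F (s i))

/-- the endomorphisms -/
noncomputable def mm (i : Fin r) : ∀ j, XX π F j →ₗ[ZG G] XX π F j
  | 0 => rq π (π (s i))
  | j + 1 => (Φ i).μ j

include hπ in
theorem pk_h0 : Function.Surjective (xd ι π F 0) := epsQ_surj π hπ F

include hι hker in
theorem pk_hex : ∀ j, j + 1 ≤ n + 1 → ∀ x, xd ι π F j x = 0 ↔ ∃ y, xd ι π F (j + 1) y = x := by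
  intro j hj
  cases j with
  | zero => exact epsQ_exact ι hι π hker F
  | succ j => exact ind_exact ι hι (F.d j) (F.d (j + 1)) (F.ex j (by omega))

include hker in
theorem eps_cm {g : G} (Ψ : CM ι F g) (x : Fin (F.k 0) → ZG G) :
    epsQ π (F.k 0) (Ψ.μ 0 x) = rq π (π g) (epsQ π (F.k 0) x) := by
  have h2 : epsQ π (F.k 0) ∘ₗ Ψ.μ 0 = rq π (π g) ∘ₗ epsQ π (F.k 0) := by
    apply lin_ext
    intro i
    show epsQ π (F.k 0) (Ψ.μ 0 (Pi.single i 1)) = rq π (π g) (epsQ π (F.k 0) (Pi.single i 1))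
    obtain ⟨v, hv⟩ := Ψ.typ 0 i
    have h3 : tot v = 1 := by
      have := Ψ.aug (Pi.single i 1)
      rwa [hv, tot_smul_of, tot_vm, tot_single] at this
    have h4 := epsQ_vm ι π hker 1 (Pi.single i 1 : Fin (F.k 0) → ZG N)
    rw [vm_single, map_one, one_smul, tot_single, map_one, map_one, one_mul, Int.cast_one] at h4
    rw [hv, epsQ_vm ι π hker, h3, h4, Int.cast_one, mul_one]
    show MonoidAlgebra.of ℤ Q (π g) = 1 * MonoidAlgebra.of ℤ Q (π g)
    rw [one_mul]
  exact LinearMap.congr_fun h2 x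

include hker in
theorem pk_hm : ∀ i j, j ≤ n + 1 → ∀ x,
    xd ι π F j (mm ι π F s Φ i (j + 1) x) = mm ι π F s Φ i j (xd ι π F j x) := by
  intro i j hj x
  cases j with
  | zero => exact eps_cm ι π hker F (Φ i) x
  | succ j => exact (Φ i).comm j hj x

theorem pk_hfin : ∀ j, j ≤ n + 1 → ∀ l, FPm (ZG G) l (XX π F (j + 1)) :=
  fun j _ l => FPm.free l (F.k j)

include hι hπ hker F in
/-- `ℤ[Q]` is of type `FP_n` over `ℤ[G]` -/
theorem zq_fp : FPm (ZG G) (n + 1) (Infl (push π) (ZG Q)) :=
  fpm_of_complex (XX π F) (xd ι π F) (n + 1) (pk_h0 ι π hπ F) (pk_hex ι hι π hker F) (pk_hfin π F)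

/-! ### the augmentation of `Q` -/

/-- the trivial module as a quotient of `ℤ[Q]` -/
noncomputable def ccQ : Infl (push π) (ZG Q) →ₗ[ZG G] Tr G where
  toFun x := (show ℤ from augR Q (show ZG Q from x))
  map_add' x y := map_add (augR Q) (show ZG Q from x) y
  map_smul' c x := by
    show augR Q (push π c * (show ZG Q from x)) = augR G c * augR Q (show ZG Q from x)
    rw [map_mul, augR_push]

theorem ccQ_surj : Function.Surjective (ccQ π) := augL_surj Q

/-- `∑ y_s (s - 1)` over `ℤ[Q]` -/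
noncomputable def fq (q : Fin r → Q) : (Fin r → ZG Q) →ₗ[ZG Q] ZG Q :=
  Fintype.linearCombination (ZG Q) (fun i => MonoidAlgebra.of ℤ Q (q i) - 1)

theorem fq_apply (q : Fin r → Q) (y : Fin r → ZG Q) :
    fq q y = ∑ i, (y i * MonoidAlgebra.of ℤ Q (q i) - y i) := by
  unfold fq
  rw [Fintype.linearCombination_apply]
  refine Finset.sum_congr rfl fun i _ => ?_
  rw [smul_eq_mul, mul_sub, mul_one]

theorem fq_range (q : Fin r → Q) (hq : Subgroup.closure (Set.range q) = ⊤) :
    LinearMap.range (fq q) = LinearMap.ker (augL Q) := by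
  unfold fq
  rw [Fintype.range_linearCombination]
  apply le_antisymm
  · rw [Submodule.span_le]
    rintro _ ⟨i, rfl⟩
    show augR Q (MonoidAlgebra.of ℤ Q (q i) - 1) = 0
    rw [map_sub, augR_of, map_one, sub_self]
  · intro x hx
    have h1 := Pool.Agent.W326.DU.aug_th Q (Set.range q) hq x hx
    refine Submodule.span_mono ?_ h1
    rintro _ ⟨_, ⟨i, rfl⟩, rfl⟩
    exact ⟨i, rfl⟩

theorem ff_zero (y : Fin r → ZG Q) :
    ff (XX π F) (mm ι π F s Φ) 0 (show Fin r → XX π F 0 from y) =
      (show Infl (push π) (ZG Q) from fq (fun i => π (s i)) y) := by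
  rw [ff_apply]
  show _ = (fq (fun i => π (s i)) y : ZG Q)
  rw [fq_apply]
  rfl

theorem pk_hck (hq : Subgroup.closure (Set.range (fun i => π (s i))) = ⊤) (x : XX π F 0) :
    ccQ π x = 0 ↔ ∃ y, ff (XX π F) (mm ι π F s Φ) 0 y = x := by
  have h1 := fq_range _ hq
  constructor
  · intro hx
    have h2 : (show ZG Q from x) ∈ LinearMap.ker (augL Q) := hx
    rw [← h1] at h2
    obtain ⟨y, hy⟩ := h2
    exact ⟨y, by rw [ff_zero]; exact hy⟩
  · rintro ⟨y, rfl⟩
    have h3 := ff_zero ι π F s Φ y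
    have h2 : fq (fun i => π (s i)) y ∈ LinearMap.ker (augL Q) := by rw [← h1]; exact ⟨y, rfl⟩
    rw [h3]
    exact h2

include hι hπ hker in
/-- the first homology of the cone -/
theorem pk_A {l : ℕ} (hl : l ≤ n + 1) (h : FPm (ZG Q) l (LinearMap.ker (fq (fun i => π (s i))))) :
    FPm (ZG G) l (LinearMap.ker (ff (XX π F) (mm ι π F s Φ) 0)) := by
  have h1 := infl_fp (push π) ((zq_fp ι hι π hπ hker F).mono hl) h
  let e : Infl (push π) (LinearMap.ker (fq (fun i => π (s i)))) ≃ₗ[ZG G]
      LinearMap.ker (ff (XX π F) (mm ι π F s Φ) 0) :=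
    { toFun := fun x => ⟨x.1, by
        show ff (XX π F) (mm ι π F s Φ) 0 _ = 0
        have h3 := ff_zero ι π F s Φ x.1
        rw [show fq (fun i => π (s i)) x.1 = 0 from x.2] at h3
        exact h3⟩
      invFun := fun x => ⟨x.1, by
        show fq (fun i => π (s i)) _ = 0
        have h3 := ff_zero ι π F s Φ x.1
        rw [show ff (XX π F) (mm ι π F s Φ) 0 x.1 = 0 from x.2] at h3
        exact h3.symm⟩
      left_inv := fun x => rfl
      right_inv := fun x => rfl
      map_add' := fun x y => rfl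
      map_smul' := fun c x => rfl }
  exact h1.equiv e

/-- from the group `Q` -/
theorem q_fp {l : ℕ} (q : Fin r → Q) (hq : Subgroup.closure (Set.range q) = ⊤)
    (h : FPm (ZG Q) (l + 2) (Tr Q)) : FPm (ZG Q) l (LinearMap.ker (fq q)) := by
  have hfree : ∀ i, FPm (ZG Q) i (ZG Q) := fun i =>
    (FPm.free (R := ZG Q) i 1).equiv (LinearEquiv.funUnique (Fin 1) (ZG Q) (ZG Q))
  have h1 : FPm (ZG Q) (l + 1) (LinearMap.ker (augL Q)) :=
    FPm.ker (augL Q) (augL_surj Q) (hfree _) h
  rw [← fq_range q hq] at h1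
  have h2 := FPm.ker (fq q).rangeRestrict (LinearMap.surjective_rangeRestrict _) (FPm.free l r) h1
  rwa [LinearMap.ker_rangeRestrict] at h2

include hι hπ hker in
/-- **`Γ` of type `FP_{n+2}` and `Q` of type `FP_{n+3}` make `W` finitely generated.** -/
theorem pk_wfg (hq : Subgroup.closure (Set.range (fun i => π (s i))) = ⊤)
    (hG : FPm (ZG G) (n + 2) (Tr G)) (hQ : FPm (ZG Q) (n + 3) (Tr Q)) :
    WFG (XX π F) (xd ι π F) (mm ι π F s Φ) (n + 1) :=
  wfg_main (XX π F) (xd ι π F) (mm ι π F s Φ) (n + 1) (pk_h0 ι π hπ F) (pk_hex ι hι π hker F)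
    (pk_hm ι π hker F s Φ) (pk_hfin π F) (ccQ π) (ccQ_surj π) (pk_hck ι π F s Φ hq) hG
    (pk_A ι hι π hπ hker F s Φ le_rfl (q_fp _ hq hQ))

include hι hπ hker in
/-- **Conversely.** -/
theorem wfg_pk (hq : Subgroup.closure (Set.range (fun i => π (s i))) = ⊤)
    (hW : WFG (XX π F) (xd ι π F) (mm ι π F s Φ) (n + 1)) (hQ : FPm (ZG Q) (n + 2) (Tr Q)) :
    FPm (ZG G) (n + 2) (Tr G) :=
  main_wfg (XX π F) (xd ι π F) (mm ι π F s Φ) n (pk_h0 ι π hπ F) (pk_hex ι hι π hker F)
    (pk_hm ι π hker F s Φ) (pk_hfin π F) (ccQ π) (ccQ_surj π) (pk_hck ι π F s Φ hq) hW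
    (pk_A ι hι π hπ hker F s Φ (Nat.le_succ n) (q_fp _ hq hQ))

end pack

end Pool.Agent.TH18.NN
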